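import Mathlib

set_option autoImplicit false

/-! Random fields on the digits: the digits of an integer, and the definitions. -/

namespace Pool.Agent.N213.GF
open Finset

/-- the digit of `v` at the position `i` in base `b` -/
def dig (b v i : ℕ) : ℕ := v / b ^ i % b

/-- the integer with the given digits at the positions below `k` -/
def mk (b k : ℕ) (f : ℕ → ℕ) : ℕ := ∑ i ∈ range k, f i * b ^ i

lemma dig_lt (b v i : ℕ) (hb : 2 ≤ b) : dig b v i < b := Nat.mod_lt _ (by omega)

lemma mk_lt (b k : ℕ) (f : ℕ → ℕ) (hf : ∀ i < k, f i < b) : mk b k f < b ^ k := by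
  induction k with
  | zero => simp [mk]
  | succ k ih =>
    have h1 := ih (fun i hi => hf i (by omega))
    have h2 := hf k (by omega)
    unfold mk at h1 ⊢
    rw [sum_range_succ, pow_succ]
    have h3 : (f k + 1) * b ^ k ≤ b * b ^ k := Nat.mul_le_mul_right _ h2
    calc _ < b ^ k + f k * b ^ k := by omega
      _ = (f k + 1) * b ^ k := by ring
      _ ≤ b * b ^ k := h3
      _ = _ := by ring

lemma dig_big (b k v : ℕ) (hb : 2 ≤ b) (hv : v < b ^ k) (i : ℕ) (hi : k ≤ i) : dig b v i = 0 := by
  unfold dig
  rw [Nat.div_eq_of_lt (hv.trans_le (Nat.pow_le_pow_right (by omega) hi)), Nat.zero_mod]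

lemma dig_add (b k v c i : ℕ) (hb : 2 ≤ b) (hi : i < k) : dig b (v + c * b ^ k) i = dig b v i := by
  unfold dig
  obtain ⟨m, rfl⟩ : ∃ m, k = i + (m + 1) := ⟨k - i - 1, by omega⟩
  rw [pow_add, pow_succ, show v + c * (b ^ i * (b ^ m * b)) = v + b ^ i * (c * b ^ m * b) by ring,
    Nat.add_mul_div_left _ _ (by positivity), Nat.add_mul_mod_self_right]

lemma dig_top (b k v c : ℕ) (hv : v < b ^ k) (hc : c < b) : dig b (v + c * b ^ k) k = c := by
  unfold dig
  rw [Nat.add_mul_div_right _ _ (by omega), Nat.div_eq_of_lt hv, zero_add, Nat.mod_eq_of_lt hc]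

lemma dig_mk (b k : ℕ) (hb : 2 ≤ b) (f : ℕ → ℕ) (hf : ∀ i < k, f i < b) (i : ℕ) (hi : i < k) : dig b (mk b k f) i = f i := by
  induction k with
  | zero => omega
  | succ k ih =>
    have e : mk b (k + 1) f = mk b k f + f k * b ^ k := by unfold mk; rw [sum_range_succ]
    rw [e]
    rcases Nat.lt_succ_iff_lt_or_eq.1 hi with h | h
    · rw [dig_add b k _ _ i hb h, ih (fun i hi => hf i (by omega)) h]
    · rw [h, dig_top b k _ _ (mk_lt b k f (fun i hi => hf i (by omega))) (hf k (by omega))]

lemma mk_dig (b k : ℕ) (hb : 2 ≤ b) (v : ℕ) (hv : v < b ^ k) : mk b k (dig b v) = v := by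
  induction k generalizing v with
  | zero =>
    rw [pow_zero] at hv
    have : v = 0 := by omega
    rw [this]; rfl
  | succ k ih =>
    have e : mk b (k + 1) (dig b v) = mk b k (dig b v) + dig b v k * b ^ k := by unfold mk; rw [sum_range_succ]
    have hbk : 0 < b ^ k := by positivity
    have h1 : v / b ^ k < b := by
      rw [Nat.div_lt_iff_lt_mul hbk, mul_comm]
      rwa [pow_succ] at hv
    have h2 : dig b v k = v / b ^ k := by unfold dig; exact Nat.mod_eq_of_lt h1
    have h3 : mk b k (dig b v) = v % b ^ k := by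
      have h4 := ih (v % b ^ k) (Nat.mod_lt _ hbk)
      rw [← h4]
      unfold mk
      apply sum_congr rfl
      intro i hi
      rw [mem_range] at hi
      have h5 : v = v % b ^ k + (v / b ^ k) * b ^ k := by rw [mul_comm]; exact (Nat.mod_add_div v _).symm
      have h6 : dig b v i = dig b (v % b ^ k) i := by
        conv_lhs => rw [h5]
        exact dig_add b k _ _ i hb hi
      rw [h6]
    rw [e, h2, h3, mul_comm]
    exact Nat.mod_add_div v _

/-- the two integers have the same digits outside `S` -/
def Off (b : ℕ) (S : Finset ℕ) (v w : ℕ) : Prop := ∀ i, i ∉ S → dig b v i = dig b w i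

/-- the integer with the digits of `v` at the positions in `S` and with the digits of `w` at the other positions below `k` -/
def splice (b k : ℕ) (S : Finset ℕ) (v w : ℕ) : ℕ := mk b k (fun i => if i ∈ S then dig b v i else dig b w i)

lemma splice_lt (b k : ℕ) (hb : 2 ≤ b) (S : Finset ℕ) (v w : ℕ) : splice b k S v w < b ^ k := by
  apply mk_lt
  intro i _
  split_ifs
  · exact dig_lt _ _ _ hb
  · exact dig_lt _ _ _ hb

lemma dig_splice (b k : ℕ) (hb : 2 ≤ b) (S : Finset ℕ) (v w : ℕ) (hv : v < b ^ k) (hw : w < b ^ k) (i : ℕ) :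
    dig b (splice b k S v w) i = if i ∈ S then dig b v i else dig b w i := by
  rcases Nat.lt_or_ge i k with hi | hi
  · unfold splice
    rw [dig_mk b k hb _ _ i hi]
    intro i _
    split_ifs
    · exact dig_lt _ _ _ hb
    · exact dig_lt _ _ _ hb
  · rw [dig_big b k _ hb (splice_lt b k hb S v w) i hi, dig_big b k _ hb hv i hi, dig_big b k _ hb hw i hi, ite_self]

lemma dig_ext (b k : ℕ) (hb : 2 ≤ b) (v w : ℕ) (hv : v < b ^ k) (hw : w < b ^ k) (h : ∀ i, dig b v i = dig b w i) : v = w := by
  rw [← mk_dig b k hb v hv, ← mk_dig b k hb w hw]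
  congr 1
  funext i
  exact h i

/-- the closed neighbourhood of `i` -/
noncomputable def nb (k : ℕ) (A : ℕ → ℕ → Prop) (i : ℕ) : Finset ℕ := by
  classical
  exact (range k).filter (fun j => j = i ∨ A i j)

lemma mem_nb {k : ℕ} {A : ℕ → ℕ → Prop} {i j : ℕ} : j ∈ nb k A i ↔ j < k ∧ (j = i ∨ A i j) := by
  classical
  unfold nb
  rw [mem_filter, mem_range]

open Classical in
/-- the total weight of the integers which have the same digits as `v` outside `S` -/
noncomputable def mass (b k : ℕ) (p : ℕ → ℝ) (S : Finset ℕ) (v : ℕ) : ℝ :=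
  ∑ w ∈ (range (b ^ k)).filter (fun w => Off b S w v), p w

/-- A random integer `v < b ^ k` (with the probabilities `p v`) whose digits form a Markov random field on a graph of
positions `0, …, k - 1` with degrees at most `Δ`, and such that each digit is flexible: for each position `i` and each
possible choice of the digits outside the closed neighbourhood of `i`, there are two choices `x`, `y` of the remaining digits
which differ only at the position `i` and which have conditional probabilities at least `η`. -/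
structure Field (b k Δ : ℕ) (η : ℝ) (A : ℕ → ℕ → Prop) (p : ℕ → ℝ) : Prop where
  /-- the graph -/
  symm : ∀ i j, A i j → A j i
  /-- the degrees -/
  degree : ∀ i < k, (nb k A i).card ≤ Δ + 1
  /-- probabilities -/
  nonneg : ∀ v, 0 ≤ p v
  /-- probabilities -/
  sum : ∑ v ∈ range (b ^ k), p v = 1
  /-- the Markov property: the digits in `S` and the digits outside `S` may be combined -/
  markov : ∀ S : Finset ℕ, ∀ v < b ^ k, ∀ w < b ^ k, (∀ i ∈ S, ∀ j < k, j ∉ S → A i j → dig b v j = dig b w j) →
    p v * p w = p (splice b k S v w) * p (splice b k S w v)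
  /-- flexible digits -/
  flexible : ∀ v < b ^ k, p v ≠ 0 → ∀ i < k, ∃ x < b ^ k, ∃ y < b ^ k, Off b (nb k A i) x v ∧ Off b {i} y x ∧
    dig b y i ≠ dig b x i ∧ η * mass b k p (nb k A i) v ≤ p x ∧ η * mass b k p (nb k A i) v ≤ p y

end Pool.Agent.N213.GF
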