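import Pool.Agent.N213.GF.A

set_option autoImplicit false

/-! Random fields on the digits: the averages over separated blocks. -/

namespace Pool.Agent.N213.GF
open Finset

variable {b k Δ : ℕ} {η : ℝ} {A : ℕ → ℕ → Prop} {p : ℕ → ℝ}

lemma off_refl (S : Finset ℕ) (v : ℕ) : Off b S v v := fun _ _ => rfl

lemma off_symm {S : Finset ℕ} {v w : ℕ} (h : Off b S v w) : Off b S w v := fun i hi => (h i hi).symm

lemma off_trans {S : Finset ℕ} {u v w : ℕ} (h : Off b S u v) (h' : Off b S v w) : Off b S u w :=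
  fun i hi => (h i hi).trans (h' i hi)

open Classical in
/-- the integers with the same digits outside `S` -/
noncomputable def cl (b k : ℕ) (S : Finset ℕ) (v : ℕ) : Finset ℕ := (range (b ^ k)).filter (fun w => Off b S w v)

lemma mem_cl {S : Finset ℕ} {v w : ℕ} : w ∈ cl b k S v ↔ w < b ^ k ∧ Off b S w v := by
  classical
  unfold cl
  rw [mem_filter, mem_range]

lemma mass_eq (S : Finset ℕ) (v : ℕ) : mass b k p S v = ∑ w ∈ cl b k S v, p w := rfl

lemma cl_eq {S : Finset ℕ} {v w : ℕ} (h : Off b S v w) : cl b k S v = cl b k S w := by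
  ext u
  rw [mem_cl, mem_cl]
  exact ⟨fun hu => ⟨hu.1, off_trans hu.2 h⟩, fun hu => ⟨hu.1, off_trans hu.2 (off_symm h)⟩⟩

/-- the sum of `h` over the class of `v` -/
noncomputable def csum (b k : ℕ) (p : ℕ → ℝ) (h : ℕ → ℂ) (S : Finset ℕ) (v : ℕ) : ℂ := ∑ w ∈ cl b k S v, (p w : ℂ) * h w

/-- the blocks around `i` and `j` are disjoint and not adjacent -/
def Sep (k : ℕ) (A : ℕ → ℕ → Prop) (i j : ℕ) : Prop := ∀ x ∈ nb k A i, ∀ y ∈ nb k A j, x ≠ y ∧ ¬ A x y

lemma mass_pos (hF : Field b k Δ η A p) (S : Finset ℕ) (v : ℕ) (hv : v < b ^ k) (hpv : p v ≠ 0) : 0 < mass b k p S v := by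
  rw [mass_eq]
  have h1 : 0 < p v := lt_of_le_of_ne (hF.nonneg v) hpv.symm
  have h2 : p v ≤ ∑ w ∈ cl b k S v, p w :=
    single_le_sum (f := p) (fun w _ => hF.nonneg w) (mem_cl.2 ⟨hv, off_refl S v⟩)
  linarith

lemma mass_nonneg (hF : Field b k Δ η A p) (S : Finset ℕ) (v : ℕ) : 0 ≤ mass b k p S v := by
  rw [mass_eq]
  exact sum_nonneg fun w _ => hF.nonneg w

/-- replacing the digits of `w` outside the block by those of `v'` -/
lemma splice_bij (hb : 2 ≤ b) (S : Finset ℕ) (v v' : ℕ) (hv : v < b ^ k) (hv' : v' < b ^ k) (f g : ℕ → ℂ) (hfg : ∀ w ∈ cl b k S v, f w = g (splice b k S w v')) :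
    ∑ w ∈ cl b k S v, f w = ∑ w ∈ cl b k S v', g w := by
  have e1 : ∀ w ∈ cl b k S v, splice b k S w v' ∈ cl b k S v' := by
    intro w hw
    rw [mem_cl] at hw ⊢
    refine ⟨splice_lt b k hb S w v', fun i hi => ?_⟩
    rw [dig_splice b k hb S w v' hw.1 hv', if_neg hi]
  have e2 : ∀ w ∈ cl b k S v', splice b k S w v ∈ cl b k S v := by
    intro w hw
    rw [mem_cl] at hw ⊢
    refine ⟨splice_lt b k hb S w v, fun i hi => ?_⟩
    rw [dig_splice b k hb S w v hw.1 hv, if_neg hi]
  refine sum_bij' (fun w _ => splice b k S w v') (fun w _ => splice b k S w v) e1 e2 ?_ ?_ hfg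
  · intro w hw
    rw [mem_cl] at hw
    apply dig_ext b k hb _ _ (splice_lt b k hb S _ v) hw.1
    intro i
    rw [dig_splice b k hb S _ v (splice_lt b k hb S w v') hv]
    split_ifs with hi
    · rw [dig_splice b k hb S w v' hw.1 hv', if_pos hi]
    · exact (hw.2 i hi).symm
  · intro w hw
    rw [mem_cl] at hw
    apply dig_ext b k hb _ _ (splice_lt b k hb S _ v') hw.1
    intro i
    rw [dig_splice b k hb S _ v' (splice_lt b k hb S w v) hv']
    split_ifs with hi
    · rw [dig_splice b k hb S w v hw.1 hv, if_pos hi]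
    · exact (hw.2 i hi).symm

/-- the average over the block around `i` does not depend on the digits in a separated block -/
lemma avg_inv (hb : 2 ≤ b) (hF : Field b k Δ η A p) (i j : ℕ) (hij : Sep k A i j) (h : ℕ → ℂ)
    (hh : ∀ v < b ^ k, ∀ w < b ^ k, (∀ x ∈ nb k A i, dig b v x = dig b w x) → h v = h w)
    (v v' : ℕ) (hv : v < b ^ k) (hv' : v' < b ^ k) (hoff : Off b (nb k A j) v v') :
    (p v' : ℂ) * csum b k p h (nb k A i) v = p v * csum b k p h (nb k A i) v' := by
  have hS : ∀ x ∈ nb k A i, dig b v x = dig b v' x := by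
    intro x hx
    apply hoff
    intro hx'
    exact (hij x hx x hx').1 rfl
  unfold csum
  rw [mul_sum, mul_sum]
  apply splice_bij hb _ v v' hv hv' (fun w => (p v' : ℂ) * ((p w : ℂ) * h w)) (fun w => (p v : ℂ) * ((p w : ℂ) * h w))
  intro w hw
  rw [mem_cl] at hw
  have h1 : h w = h (splice b k (nb k A i) w v') := by
    apply hh w hw.1 _ (splice_lt b k hb _ _ _)
    intro x hx
    rw [dig_splice b k hb _ w v' hw.1 hv', if_pos hx]
  have h2 := hF.markov (nb k A i) w hw.1 v' hv' (by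
    intro x hx y hy hy' hxy
    rw [hw.2 y hy']
    apply hoff
    intro hyj
    exact (hij x hx y hyj).2 hxy)
  have h3 : splice b k (nb k A i) v' w = v := by
    apply dig_ext b k hb _ _ (splice_lt b k hb _ _ _) hv
    intro x
    rw [dig_splice b k hb _ v' w hv' hw.1]
    split_ifs with hx
    · exact (hS x hx).symm
    · exact hw.2 x hx
  rw [h3] at h2
  have h4 : (p w : ℂ) * p v' = p (splice b k (nb k A i) w v') * p v := by exact_mod_cast h2
  rw [h1]
  linear_combination (h (splice b k (nb k A i) w v')) * h4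

/-- the average over the block around `i` -/
noncomputable def avg (b k : ℕ) (p : ℕ → ℝ) (h : ℕ → ℂ) (S : Finset ℕ) (v : ℕ) : ℂ := csum b k p h S v / mass b k p S v

lemma mass_csum (S : Finset ℕ) (v : ℕ) : (mass b k p S v : ℂ) = csum b k p (fun _ => 1) S v := by
  rw [mass_eq]
  unfold csum
  push_cast
  simp only [mul_one]

lemma avg_inv' (hb : 2 ≤ b) (hF : Field b k Δ η A p) (i j : ℕ) (hij : Sep k A i j) (h : ℕ → ℂ)
    (hh : ∀ v < b ^ k, ∀ w < b ^ k, (∀ x ∈ nb k A i, dig b v x = dig b w x) → h v = h w)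
    (v v' : ℕ) (hv : v < b ^ k) (hv' : v' < b ^ k) (hpv : p v ≠ 0) (hpv' : p v' ≠ 0) (hoff : Off b (nb k A j) v v') :
    avg b k p h (nb k A i) v = avg b k p h (nb k A i) v' := by
  have h1 := avg_inv hb hF i j hij h hh v v' hv hv' hoff
  have h2 := avg_inv hb hF i j hij (fun _ => 1) (fun _ _ _ _ _ => rfl) v v' hv hv' hoff
  rw [← mass_csum, ← mass_csum] at h2
  have m1 : (mass b k p (nb k A i) v : ℂ) ≠ 0 := by exact_mod_cast (mass_pos hF _ v hv hpv).ne'
  have m2 : (mass b k p (nb k A i) v' : ℂ) ≠ 0 := by exact_mod_cast (mass_pos hF _ v' hv' hpv').ne'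
  have q1 : (p v : ℂ) ≠ 0 := by exact_mod_cast hpv
  have q2 : (p v' : ℂ) ≠ 0 := by exact_mod_cast hpv'
  unfold avg
  rw [div_eq_div_iff m1 m2]
  apply mul_left_cancel₀ (mul_ne_zero q1 q2)
  linear_combination (p v * mass b k p (nb k A i) v') * h1 - (p v * csum b k p h (nb k A i) v') * h2

/-- averaging over one block -/
lemma average (hF : Field b k Δ η A p) (S : Finset ℕ) (h G : ℕ → ℂ)
    (hG : ∀ v < b ^ k, ∀ w < b ^ k, p v ≠ 0 → p w ≠ 0 → Off b S v w → G v = G w) :
    ∑ v ∈ range (b ^ k), (p v : ℂ) * (G v * h v) = ∑ v ∈ range (b ^ k), (p v : ℂ) * (G v * avg b k p h S v) := by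
  classical
  have h1 : ∀ v ∈ range (b ^ k), (p v : ℂ) * (G v * avg b k p h S v) =
      ∑ w ∈ range (b ^ k), if Off b S w v then (p v : ℂ) * G v * (p w * h w) / mass b k p S v else 0 := by
    intro v _
    rw [← sum_filter, ← sum_div, ← mul_sum]
    unfold avg csum cl
    ring
  rw [sum_congr rfl h1, sum_comm]
  apply sum_congr rfl
  intro w hw
  rw [mem_range] at hw
  by_cases hpw : p w = 0
  · rw [hpw, Complex.ofReal_zero, zero_mul]
    symm
    apply sum_eq_zero
    intro v _
    rw [zero_mul, mul_zero, zero_div, ite_self]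
  · have m1 := mass_pos hF S w hw hpw
    have h2 : ∀ v ∈ range (b ^ k), (if Off b S w v then (p v : ℂ) * G v * (p w * h w) / mass b k p S v else 0) =
        if Off b S v w then (p v : ℂ) * (G w * (p w * h w) / mass b k p S w) else 0 := by
      intro v hv
      rw [mem_range] at hv
      by_cases hvw : Off b S v w
      · rw [if_pos hvw, if_pos (off_symm hvw)]
        have e1 : mass b k p S v = mass b k p S w := by rw [mass_eq, mass_eq, cl_eq hvw]
        by_cases hpv : p v = 0
        · rw [hpv, Complex.ofReal_zero]; ring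
        · rw [e1, hG v hv w hw hpv hpw hvw]
          ring
      · rw [if_neg hvw, if_neg (fun h => hvw (off_symm h))]
    rw [sum_congr rfl h2, ← sum_filter, ← sum_mul]
    have h3 : ∑ v ∈ (range (b ^ k)).filter (fun v => Off b S v w), (p v : ℂ) = mass b k p S w := by
      rw [mass_eq]
      unfold cl
      push_cast
      rfl
    rw [h3]
    have m2 : (mass b k p S w : ℂ) ≠ 0 := by exact_mod_cast m1.ne'
    field_simp

/-- the averages over separated blocks -/
theorem blocks (hb : 2 ≤ b) (hF : Field b k Δ η A p) (ρ : ℝ) (hρ : 0 ≤ ρ) (h : ℕ → ℕ → ℂ) (S : Finset ℕ) :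
    (∀ i ∈ S, ∀ v < b ^ k, ∀ w < b ^ k, (∀ x ∈ nb k A i, dig b v x = dig b w x) → h i v = h i w) →
    (∀ i ∈ S, ∀ v < b ^ k, p v ≠ 0 → ‖csum b k p (h i) (nb k A i) v‖ ≤ ρ * mass b k p (nb k A i) v) →
    (∀ i ∈ S, ∀ j ∈ S, i ≠ j → Sep k A i j) →
    ∀ G : ℕ → ℂ, (∀ i ∈ S, ∀ v < b ^ k, ∀ w < b ^ k, p v ≠ 0 → p w ≠ 0 → Off b (nb k A i) v w → G v = G w) →
    ‖∑ v ∈ range (b ^ k), (p v : ℂ) * (G v * ∏ i ∈ S, h i v)‖ ≤ ρ ^ S.card * ∑ v ∈ range (b ^ k), p v * ‖G v‖ := by
  classical
  induction S using Finset.induction_on with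
  | empty =>
    intro _ _ _ G _
    simp only [prod_empty, mul_one, card_empty, pow_zero, one_mul]
    refine (norm_sum_le _ _).trans (le_of_eq ?_)
    apply sum_congr rfl
    intro v _
    rw [norm_mul, Complex.norm_real, Real.norm_of_nonneg (hF.nonneg v)]
  | insert i S hi ih =>
    intro h1 h2 h3 G hG
    have e1 : ∀ v ∈ range (b ^ k), (p v : ℂ) * (G v * ∏ j ∈ insert i S, h j v) = p v * ((G v * ∏ j ∈ S, h j v) * h i v) := by
      intro v _
      rw [prod_insert hi]
      ring
    rw [sum_congr rfl e1, average hF (nb k A i) (h i) (fun v => G v * ∏ j ∈ S, h j v) (by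
      intro v hv w hw hpv hpw hoff
      rw [hG i (mem_insert_self i S) v hv w hw hpv hpw hoff]
      congr 1
      apply prod_congr rfl
      intro j hj
      apply h1 j (mem_insert_of_mem hj) v hv w hw
      intro x hx
      apply hoff
      intro hx'
      exact (h3 i (mem_insert_self i S) j (mem_insert_of_mem hj) (fun h => hi (h ▸ hj)) x hx' x hx).1 rfl)]
    have e2 : ∀ v ∈ range (b ^ k), (p v : ℂ) * (G v * (∏ j ∈ S, h j v) * avg b k p (h i) (nb k A i) v) =
        p v * ((G v * avg b k p (h i) (nb k A i) v) * ∏ j ∈ S, h j v) := by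
      intro v _
      ring
    rw [sum_congr rfl e2]
    have h4 := ih (fun j hj => h1 j (mem_insert_of_mem hj)) (fun j hj => h2 j (mem_insert_of_mem hj))
      (fun j hj j' hj' => h3 j (mem_insert_of_mem hj) j' (mem_insert_of_mem hj'))
      (fun v => G v * avg b k p (h i) (nb k A i) v) (by
        intro j hj v hv w hw hpv hpw hoff
        rw [hG j (mem_insert_of_mem hj) v hv w hw hpv hpw hoff]
        congr 1
        exact avg_inv' hb hF i j (h3 i (mem_insert_self i S) j (mem_insert_of_mem hj) (fun h => hi (h ▸ hj))) (h i)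
          (h1 i (mem_insert_self i S)) v w hv hw hpv hpw hoff)
    refine h4.trans ?_
    rw [card_insert_of_notMem hi, pow_succ, mul_assoc]
    apply mul_le_mul_of_nonneg_left _ (pow_nonneg hρ _)
    rw [mul_sum]
    apply sum_le_sum
    intro v hv
    rw [mem_range] at hv
    by_cases hpv : p v = 0
    · rw [hpv, zero_mul, zero_mul, mul_zero]
    · have m1 := mass_pos hF (nb k A i) v hv hpv
      have h5 : ‖avg b k p (h i) (nb k A i) v‖ ≤ ρ := by
        unfold avg
        rw [norm_div, Complex.norm_real, Real.norm_of_nonneg m1.le, div_le_iff₀ m1]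
        exact h2 i (mem_insert_self i S) v hv hpv
      rw [norm_mul]
      have h6 := hF.nonneg v
      calc p v * (‖G v‖ * ‖avg b k p (h i) (nb k A i) v‖) ≤ p v * (‖G v‖ * ρ) := by gcongr
        _ = _ := by ring

end Pool.Agent.N213.GF
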