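import Pool.Agent.N213.GF.B

set_option autoImplicit false

/-! Random fields on the digits: separated centres, and the indicator functions of the leading digits. -/

namespace Pool.Agent.N213.GF
open Finset

variable {b k Δ : ℕ} {η : ℝ} {A : ℕ → ℕ → Prop} {p : ℕ → ℝ}

lemma self_mem {i : ℕ} (hi : i < k) : i ∈ nb k A i := mem_nb.2 ⟨hi, Or.inl rfl⟩

/-- the positions in conflict with `i` -/
lemma conflict (hs : ∀ i j, A i j → A j i) (hd : ∀ i < k, (nb k A i).card ≤ Δ + 1) (i : ℕ) (hi : i < k) :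
    ∃ T : Finset ℕ, T.card ≤ (Δ + 1) ^ 3 ∧ ∀ j < k, j ∉ T → Sep k A i j ∧ Sep k A j i := by
  classical
  obtain ⟨T1, hT1⟩ : ∃ T1, T1 = nb k A i := ⟨_, rfl⟩
  obtain ⟨T2, hT2⟩ : ∃ T2, T2 = T1.biUnion (nb k A) := ⟨_, rfl⟩
  obtain ⟨T3, hT3⟩ : ∃ T3, T3 = T2.biUnion (nb k A) := ⟨_, rfl⟩
  have hlt : ∀ x y, y ∈ nb k A x → y < k := fun x y h => (mem_nb.1 h).1
  have h1 : T1.card ≤ Δ + 1 := by rw [hT1]; exact hd i hi
  have h2 : T2.card ≤ (Δ + 1) * (Δ + 1) := by
    rw [hT2]
    refine card_biUnion_le_card_mul _ _ (Δ + 1) (fun x hx => hd x ?_) |>.trans (Nat.mul_le_mul_right _ h1)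
    rw [hT1] at hx
    exact hlt _ _ hx
  have h3 : T3.card ≤ (Δ + 1) * (Δ + 1) * (Δ + 1) := by
    rw [hT3]
    refine card_biUnion_le_card_mul _ _ (Δ + 1) (fun x hx => hd x ?_) |>.trans (Nat.mul_le_mul_right _ h2)
    rw [hT2, mem_biUnion] at hx
    obtain ⟨y, _, hx⟩ := hx
    exact hlt _ _ hx
  have sw : ∀ x y, x < k → y ∈ nb k A x → x ∈ nb k A y := by
    intro x y hx h
    obtain ⟨_, h | h⟩ := mem_nb.1 h
    · exact mem_nb.2 ⟨hx, Or.inl h.symm⟩
    · exact mem_nb.2 ⟨hx, Or.inr (hs _ _ h)⟩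
  have key : ∀ j < k, j ∉ T3 → ∀ x ∈ nb k A i, ∀ y ∈ nb k A j, x ≠ y ∧ ¬ A x y := by
    intro j hj hjT x hx y hy
    have hy' : y ∉ T2 := by
      intro h
      apply hjT
      rw [hT3, mem_biUnion]
      exact ⟨y, h, sw j y hj hy⟩
    have hx1 : x ∈ T1 := by rw [hT1]; exact hx
    refine ⟨fun h => ?_, fun h => ?_⟩
    · apply hy'
      rw [hT2, mem_biUnion]
      exact ⟨x, hx1, by rw [← h]; exact self_mem (hlt _ _ hx)⟩
    · apply hy'
      rw [hT2, mem_biUnion]
      exact ⟨x, hx1, mem_nb.2 ⟨hlt _ _ hy, Or.inr h⟩⟩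
  refine ⟨T3, by rw [pow_succ, pow_two]; exact h3, fun j hj hjT => ⟨key j hj hjT, fun x hx y hy => ?_⟩⟩
  have := key j hj hjT y hy x hx
  exact ⟨this.1.symm, fun h => this.2 (hs _ _ h)⟩

/-- a large separated subset -/
lemma greedy (hs : ∀ i j, A i j → A j i) (hd : ∀ i < k, (nb k A i).card ≤ Δ + 1) (n : ℕ) : ∀ G : Finset ℕ,
    (∀ i ∈ G, i < k) → G.card ≤ n →
    ∃ S ⊆ G, (∀ i ∈ S, ∀ j ∈ S, i ≠ j → Sep k A i j) ∧ G.card ≤ (Δ + 1) ^ 3 * S.card := by
  classical
  induction n with
  | zero =>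
    intro G _ hn
    refine ⟨∅, empty_subset _, fun i hi => absurd hi (notMem_empty i), by omega⟩
  | succ n ih =>
    intro G hG hn
    rcases G.eq_empty_or_nonempty with h0 | ⟨i, hi⟩
    · rw [h0]
      exact ⟨∅, empty_subset _, fun i hi => absurd hi (notMem_empty i), by simp⟩
    · obtain ⟨T, hT, hsep⟩ := conflict hs hd i (hG i hi)
      have hiT : i ∈ T := by
        by_contra h
        exact ((hsep i (hG i hi) h).1 i (self_mem (hG i hi)) i (self_mem (hG i hi))).1 rfl
      have hc : (G \ T).card < G.card := by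
        apply card_lt_card
        rw [Finset.ssubset_iff_of_subset sdiff_subset]
        exact ⟨i, hi, by simp [hiT]⟩
      obtain ⟨S, hSG, hS1, hS2⟩ := ih (G \ T) (fun j hj => hG j (mem_sdiff.1 hj).1) (by omega)
      have hiS : i ∉ S := fun h => (mem_sdiff.1 (hSG h)).2 hiT
      refine ⟨insert i S, ?_, ?_, ?_⟩
      · intro j hj
        rcases mem_insert.1 hj with h | h
        · rw [h]; exact hi
        · exact (mem_sdiff.1 (hSG h)).1
      · intro x hx y hy hxy
        rcases mem_insert.1 hx with h | h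
        · rcases mem_insert.1 hy with h' | h'
          · exact absurd (h.trans h'.symm) hxy
          · rw [h]
            have := mem_sdiff.1 (hSG h')
            exact (hsep y (hG y this.1) this.2).1
        · rcases mem_insert.1 hy with h' | h'
          · rw [h']
            have := mem_sdiff.1 (hSG h)
            exact (hsep x (hG x this.1) this.2).2
          · exact hS1 x h y h' hxy
      · rw [card_insert_of_notMem hiS]
        have h1 : G.card ≤ (G \ T).card + T.card := by
          have := card_le_card_sdiff_add_card (s := G) (t := T)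
          omega
        calc G.card ≤ (Δ + 1) ^ 3 * S.card + (Δ + 1) ^ 3 := h1.trans (add_le_add hS2 hT)
          _ = _ := by ring

/-- two flexible values -/
lemma two_vals (hF : Field b k Δ η A p) (i : ℕ) (hi : i < k) (h : ℕ → ℂ) (h1 : ∀ w, ‖h w‖ ≤ 1) (c : ℝ)
    (hc : ∀ x < b ^ k, ∀ y < b ^ k, Off b {i} y x → dig b y i ≠ dig b x i → ‖h x + h y‖ ≤ 2 - c)
    (v : ℕ) (hv : v < b ^ k) (hpv : p v ≠ 0) (hη : 0 ≤ η) :
    ‖csum b k p h (nb k A i) v‖ ≤ (1 - η * c) * mass b k p (nb k A i) v := by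
  classical
  obtain ⟨x, hx, y, hy, hxv, hyx, hne, hpx, hpy⟩ := hF.flexible v hv hpv i hi
  obtain ⟨W, hW⟩ : ∃ W, W = mass b k p (nb k A i) v := ⟨_, rfl⟩
  rw [← hW] at hpx hpy ⊢
  have hW0 : 0 ≤ W := by rw [hW]; exact mass_nonneg hF _ _
  have hi1 : i ∈ nb k A i := self_mem hi
  have hxc : x ∈ cl b k (nb k A i) v := mem_cl.2 ⟨hx, hxv⟩
  have hyc : y ∈ cl b k (nb k A i) v := by
    refine mem_cl.2 ⟨hy, fun j hj => ?_⟩
    rw [← hxv j hj]
    apply hyx
    rw [mem_singleton]
    intro h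
    exact hj (h ▸ hi1)
  have hxy : x ≠ y := fun h => hne (by rw [h])
  have e1 : csum b k p h (nb k A i) v = ∑ w ∈ cl b k (nb k A i) v,
      ((p w - (if w = x then η * W else 0) - (if w = y then η * W else 0) : ℝ) : ℂ) * h w + (η * W : ℝ) * (h x + h y) := by
    have e2 : (η * W : ℝ) * (h x + h y) = ∑ w ∈ cl b k (nb k A i) v, ((if w = x then ((η * W : ℝ) : ℂ) * h w else 0) +
        (if w = y then ((η * W : ℝ) : ℂ) * h w else 0)) := by
      rw [sum_add_distrib, sum_ite_eq' _ x, sum_ite_eq' _ y, if_pos hxc, if_pos hyc]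
      ring
    rw [e2, ← sum_add_distrib]
    unfold csum
    apply sum_congr rfl
    intro w _
    split_ifs <;> push_cast <;> ring
  have e3 : ∑ w ∈ cl b k (nb k A i) v, (p w - (if w = x then η * W else 0) - (if w = y then η * W else 0)) = W - 2 * (η * W) := by
    rw [sum_sub_distrib, sum_sub_distrib, sum_ite_eq' _ x, sum_ite_eq' _ y, if_pos hxc, if_pos hyc, hW, ← mass_eq]
    ring
  have e4 : ∀ w ∈ cl b k (nb k A i) v, 0 ≤ p w - (if w = x then η * W else 0) - (if w = y then η * W else 0) := by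
    intro w _
    have := hF.nonneg w
    by_cases hwx : w = x
    · rw [if_pos hwx, if_neg (fun h => hxy (hwx.symm.trans h)), hwx]
      linarith
    · by_cases hwy : w = y
      · rw [if_neg hwx, if_pos hwy, hwy]
        linarith
      · rw [if_neg hwx, if_neg hwy]
        linarith
  rw [e1]
  have hηW : 0 ≤ η * W := mul_nonneg hη hW0
  calc _ ≤ ‖∑ w ∈ cl b k (nb k A i) v,
      ((p w - (if w = x then η * W else 0) - (if w = y then η * W else 0) : ℝ) : ℂ) * h w‖ + ‖((η * W : ℝ) : ℂ) * (h x + h y)‖ := norm_add_le _ _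
    _ ≤ ∑ w ∈ cl b k (nb k A i) v, (p w - (if w = x then η * W else 0) - (if w = y then η * W else 0)) + (η * W) * (2 - c) := by
        apply add_le_add
        · refine (norm_sum_le _ _).trans ?_
          apply sum_le_sum
          intro w hw
          rw [norm_mul, Complex.norm_real, Real.norm_of_nonneg (e4 w hw)]
          exact mul_le_of_le_one_right (e4 w hw) (h1 w)
        · rw [norm_mul, Complex.norm_real, Real.norm_of_nonneg hηW]
          exact mul_le_mul_of_nonneg_left (hc x hx y hy hyx hne) hηW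
    _ = _ := by rw [e3]; ring

/-- the flexibility is at most one half -/
lemma eta_le (hF : Field b k Δ η A p) (i : ℕ) (hi : i < k) (v : ℕ) (hv : v < b ^ k) (hpv : p v ≠ 0) : η ≤ 1 / 2 := by
  classical
  obtain ⟨x, hx, y, hy, hxv, hyx, hne, hpx, hpy⟩ := hF.flexible v hv hpv i hi
  have hW := mass_pos hF (nb k A i) v hv hpv
  have hi1 : i ∈ nb k A i := self_mem hi
  have hxc : x ∈ cl b k (nb k A i) v := mem_cl.2 ⟨hx, hxv⟩
  have hyc : y ∈ cl b k (nb k A i) v := by
    refine mem_cl.2 ⟨hy, fun j hj => ?_⟩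
    rw [← hxv j hj]
    apply hyx
    rw [mem_singleton]
    intro h
    exact hj (h ▸ hi1)
  have hxy : x ≠ y := fun h => hne (by rw [h])
  have h2 : p x + p y ≤ mass b k p (nb k A i) v := by
    rw [mass_eq, ← sum_pair hxy]
    apply sum_le_sum_of_subset_of_nonneg
    · intro w hw
      rcases mem_insert.1 hw with h | h
      · rw [h]; exact hxc
      · rw [mem_singleton.1 h]; exact hyc
    · intro w _ _
      exact hF.nonneg w
  by_contra hcon
  push Not at hcon
  have : 1 / 2 * mass b k p (nb k A i) v < η * mass b k p (nb k A i) v := mul_lt_mul_of_pos_right hcon hW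
  linarith

open Classical in
/-- the probability that the digits at separated positions are given -/
theorem given (hb : 2 ≤ b) (hF : Field b k Δ η A p) (hη : 0 ≤ η) (hη1 : η ≤ 1) (S : Finset ℕ) (hSk : ∀ i ∈ S, i < k)
    (hS : ∀ i ∈ S, ∀ j ∈ S, i ≠ j → Sep k A i j) (d : ℕ → ℕ) :
    ∑ v ∈ range (b ^ k), (if ∀ i ∈ S, dig b v i = d i then p v else 0) ≤ (1 - η) ^ S.card := by
  have h1 := blocks hb hF (1 - η) (by linarith) (fun i v => if dig b v i = d i then 1 else 0) S
    (by
      intro i hi v hv w hw h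
      rw [h i (self_mem (hSk i hi))])
    (by
      intro i hi v hv hpv
      have := two_vals hF i (hSk i hi) (fun v => if dig b v i = d i then (1 : ℂ) else 0) (by
        intro w
        split_ifs
        · simp
        · simp) 1 (by
        intro x hx y hy _ hne
        by_cases h1 : dig b x i = d i
        · rw [if_pos h1, if_neg (fun h => hne (h.trans h1.symm))]
          norm_num
        · rw [if_neg h1]
          split_ifs
          · norm_num
          · norm_num) v hv hpv hη
      rw [mul_one] at this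
      exact this)
    hS (fun _ => 1) (fun _ _ _ _ _ _ _ _ _ => rfl)
  have e1 : ∑ v ∈ range (b ^ k), p v * ‖(1 : ℂ)‖ = 1 := by
    rw [norm_one]
    simp only [mul_one]
    exact hF.sum
  rw [e1, mul_one] at h1
  have e2 : ∑ v ∈ range (b ^ k), (p v : ℂ) * (1 * ∏ i ∈ S, (if dig b v i = d i then (1 : ℂ) else 0)) =
      ((∑ v ∈ range (b ^ k), (if ∀ i ∈ S, dig b v i = d i then p v else 0) : ℝ) : ℂ) := by
    push_cast
    apply sum_congr rfl
    intro v _
    rw [one_mul]
    by_cases h : ∀ i ∈ S, dig b v i = d i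
    · rw [if_pos h, prod_congr rfl (fun i hi => if_pos (h i hi)), prod_const_one, mul_one]
    · rw [if_neg h]
      push Not at h
      obtain ⟨i, hi, h⟩ := h
      rw [prod_eq_zero hi (if_neg h), mul_zero, Complex.ofReal_zero]
  rw [e2, Complex.norm_real, Real.norm_of_nonneg] at h1
  · exact h1
  · apply sum_nonneg
    intro v _
    split_ifs
    · exact hF.nonneg v
    · exact le_rfl

end Pool.Agent.N213.GF
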