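import Pool.Agent.N213.GF.C
import Pool.Agent.W93.AU8
import Pool.Agent.TH872.Mir4

set_option autoImplicit false

/-! Random fields on the digits: the exponential sums, and the law of the random integer. -/

namespace Pool.Agent.N213.GF
open Finset
open Pool.Agent.H807R2.Dav
open Pool.Agent.W93.AU
open Pool.Agent.W93.DG
open Pool.Agent.TH872.Mir (pow_log' room)

variable {b k Δ : ℕ} {η : ℝ} {A : ℕ → ℕ → Prop} {p : ℕ → ℝ}

lemma ee_zero' : ee 0 = 1 := by
  unfold ee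
  simp

lemma ee_sum (S : Finset ℕ) (f : ℕ → ℝ) : ee (∑ i ∈ S, f i) = ∏ i ∈ S, ee (f i) := by
  classical
  induction S using Finset.induction_on with
  | empty => rw [sum_empty, prod_empty, ee_zero']
  | insert i S hi ih => rw [sum_insert hi, prod_insert hi, ee_add, ih]

lemma ee_digits (hb : 2 ≤ b) (v : ℕ) (hv : v < b ^ k) (θ : ℝ) :
    ee (v * θ) = ∏ j ∈ range k, ee (dig b v j * ((b : ℝ) ^ j * θ)) := by
  rw [← ee_sum]
  congr 1
  conv_lhs => rw [← mk_dig b k hb v hv]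
  unfold mk
  push_cast
  rw [sum_mul]
  apply sum_congr rfl
  intro j _
  ring

/-- the exponential sum -/
theorem char_field (hb : 2 ≤ b) (hF : Field b k Δ η A p) (c θ : ℝ) (hη : 0 ≤ η) (hηc : η * c ≤ 1) (S : Finset ℕ) (hSk : ∀ i ∈ S, i < k)
    (hS : ∀ i ∈ S, ∀ j ∈ S, i ≠ j → Sep k A i j) (hg : ∀ i ∈ S, Gd b c ((b : ℝ) ^ i * θ)) :
    ‖∑ v ∈ range (b ^ k), (p v : ℂ) * ee (v * θ)‖ ≤ (1 - η * c) ^ S.card := by
  classical
  obtain ⟨f, hf⟩ : ∃ f : ℕ → ℕ → ℂ, f = fun v j => ee (dig b v j * ((b : ℝ) ^ j * θ)) := ⟨_, rfl⟩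
  have hf1 : ∀ v j, ‖f v j‖ = 1 := fun v j => by rw [hf]; exact norm_ee _
  obtain ⟨U, hU⟩ : ∃ U, U = S.biUnion (nb k A) := ⟨_, rfl⟩
  have hUk : U ⊆ range k := by
    intro j hj
    rw [hU, mem_biUnion] at hj
    obtain ⟨i, _, hj⟩ := hj
    exact mem_range.2 (mem_nb.1 hj).1
  have e1 : ∀ v ∈ range (b ^ k), (p v : ℂ) * ee (v * θ) = p v * ((∏ j ∈ range k \ U, f v j) * ∏ i ∈ S, ∏ j ∈ nb k A i, f v j) := by
    intro v hv
    rw [mem_range] at hv
    rw [ee_digits hb v hv θ, ← prod_biUnion, ← hU, prod_sdiff hUk, hf]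
    intro i hi j hj hij
    rw [Function.onFun, disjoint_left]
    intro x hx hx'
    exact (hS i hi j hj hij x hx x hx').1 rfl
  rw [sum_congr rfl e1]
  have h1 := blocks hb hF (1 - η * c) (by linarith) (fun i v => ∏ j ∈ nb k A i, f v j) S
    (by
      intro i _ v _ w _ h
      apply prod_congr rfl
      intro j hj
      rw [hf]
      simp only
      rw [h j hj])
    (by
      intro i hi v hv hpv
      apply two_vals hF i (hSk i hi) (fun v => ∏ j ∈ nb k A i, f v j) _ c _ v hv hpv hη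
      · intro w
        rw [norm_prod, prod_congr rfl (fun j _ => hf1 w j), prod_const_one]
      · intro x _ y _ hyx hne
        have hi1 : i ∈ nb k A i := self_mem (hSk i hi)
        rw [← mul_prod_erase _ _ hi1, ← mul_prod_erase _ _ hi1]
        have h2 : ∏ j ∈ (nb k A i).erase i, f y j = ∏ j ∈ (nb k A i).erase i, f x j := by
          apply prod_congr rfl
          intro j hj
          rw [hf]
          simp only
          rw [hyx j (by rw [mem_singleton]; exact ne_of_mem_erase hj)]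
        rw [h2, ← add_mul, norm_mul, norm_prod, prod_congr rfl (fun j _ => hf1 x j), prod_const_one, mul_one]
        have h3 := hg i hi
        rw [hf]
        simp only
        rcases lt_or_gt_of_ne hne with h | h
        · rw [add_comm]
          exact h3 _ _ h (dig_lt b x i hb)
        · exact h3 _ _ h (dig_lt b y i hb))
    hS (fun v => ∏ j ∈ range k \ U, f v j)
    (by
      intro i hi v _ w _ _ _ h
      apply prod_congr rfl
      intro j hj
      rw [hf]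
      simp only
      rw [h j (by
        intro h'
        apply (mem_sdiff.1 hj).2
        rw [hU, mem_biUnion]
        exact ⟨i, hi, h'⟩)])
  refine h1.trans (le_of_eq ?_)
  have e2 : ∑ v ∈ range (b ^ k), p v * ‖∏ j ∈ range k \ U, f v j‖ = 1 := by
    rw [← hF.sum]
    apply sum_congr rfl
    intro v _
    rw [norm_prod, prod_congr rfl (fun j _ => hf1 v j), prod_const_one, mul_one]
  rw [e2, mul_one]

/-- the flexibility is at most one half -/
lemma eta_half (hF : Field b k Δ η A p) (hk : 0 < k) : η ≤ 1 / 2 := by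
  have h1 : ∃ v ∈ range (b ^ k), p v ≠ 0 := by
    by_contra hcon
    push Not at hcon
    have := hF.sum
    rw [sum_congr rfl hcon, sum_const_zero] at this
    norm_num at this
  obtain ⟨v, hv, hpv⟩ := h1
  exact eta_le hF 0 hk v (mem_range.1 hv) hpv

/-- the exponential sums are small -/
theorem char_small (hb : 2 ≤ b) (Δ : ℕ) (η : ℝ) (hη : 0 < η) (κ : ℤ) (e V : ℕ) : ∃ D K₀ : ℕ, ∀ K : ℕ, K₀ ≤ K → ∀ m, K = m + e →
    ∀ A p, Field b m Δ η A p → ∀ t, D * (Nat.log b K + 1) ≤ ne b 0 K ((b.factorial * κ.natAbs * t) % b ^ (K + 1)) →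
    ‖∑ v ∈ range (b ^ m), (p v : ℂ) * ee (v * ((κ : ℝ) * ((t : ℝ) / ((b ^ (K + 1) : ℕ) : ℝ))))‖ ≤ 1 / (K : ℝ) ^ V := by
  classical
  have hB2 : (2 : ℝ) ≤ b := by exact_mod_cast hb
  have hF1 : (1 : ℝ) ≤ (b.factorial : ℝ) := by exact_mod_cast b.factorial_pos
  obtain ⟨c, hc⟩ : ∃ c, c = 4 * (1 / ((b : ℝ) ^ 2 * (b.factorial : ℝ))) ^ 2 := ⟨_, rfl⟩
  have hc0 : 0 < c := by rw [hc]; positivity
  have hc1 : c ≤ 1 / 4 := by
    rw [hc]
    have e1 : (4 : ℝ) ≤ (b : ℝ) ^ 2 * (b.factorial : ℝ) := by nlinarith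
    have e2 : 1 / ((b : ℝ) ^ 2 * (b.factorial : ℝ)) ≤ 1 / 4 := one_div_le_one_div_of_le (by norm_num) e1
    have e3 : 0 ≤ 1 / ((b : ℝ) ^ 2 * (b.factorial : ℝ)) := by positivity
    nlinarith
  rcases le_or_gt η (1 / 2) with hη2 | hη2
  swap
  · refine ⟨0, e + 1, fun K hK m hm A p hF => ?_⟩
    exact absurd (eta_half hF (by omega)) (by linarith)
  obtain ⟨μ, hμ⟩ : ∃ μ, μ = 1 - η * c := ⟨_, rfl⟩
  have hηc : η * c ≤ 1 / 2 := by nlinarith
  have hηc0 : 0 < η * c := mul_pos hη hc0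
  have hμ0 : 0 ≤ μ := by rw [hμ]; linarith
  have hμ1 : μ < 1 := by rw [hμ]; linarith
  obtain ⟨D', hD'⟩ := exists_pow_lt_of_lt_one (show 0 < (1 / (b : ℝ)) ^ V by positivity) hμ1
  obtain ⟨M, hM⟩ : ∃ M, M = (Δ + 1) ^ 3 := ⟨_, rfl⟩
  refine ⟨M * D' + e, 1, fun K hK m hm A p hF t ht => ?_⟩
  obtain ⟨θ, hθ⟩ : ∃ θ, θ = (κ : ℝ) * ((t : ℝ) / ((b ^ (K + 1) : ℕ) : ℝ)) := ⟨_, rfl⟩
  obtain ⟨Lg, hLg⟩ : ∃ Lg, Lg = Nat.log b K + 1 := ⟨_, rfl⟩
  have hLg1 : 1 ≤ Lg := by omega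
  have hgc := gc_ge b κ t K m e 0 hb hm
  rw [← hc, ← hθ, gc_eq] at hgc
  rw [← hθ]
  obtain ⟨G, hG⟩ : ∃ G : Finset ℕ, G = (range m).filter (fun j => Gd b c ((b : ℝ) ^ j * θ)) := ⟨_, rfl⟩
  have e1 : ∑ j ∈ range m, (if 0 + j + 1 ≤ m ∧ Gd b c ((b : ℝ) ^ j * θ) then 1 else 0) = G.card := by
    rw [hG, card_filter]
    apply sum_congr rfl
    intro j hj
    rw [mem_range] at hj
    by_cases h : Gd b c ((b : ℝ) ^ j * θ)
    · rw [if_pos h, if_pos ⟨by omega, h⟩]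
    · rw [if_neg h, if_neg (fun h' => h h'.2)]
  rw [e1] at hgc
  obtain ⟨S, hSG, hS1, hS2⟩ := greedy hF.symm hF.degree G.card G (fun i hi => by
    rw [hG, mem_filter, mem_range] at hi
    exact hi.1) le_rfl
  have h1 := char_field hb hF c θ hη.le (by linarith) S (fun i hi => by
    have := hSG hi
    rw [hG, mem_filter, mem_range] at this
    exact this.1) hS1 (fun i hi => by
    have := hSG hi
    rw [hG, mem_filter, mem_range] at this
    exact this.2)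
  refine h1.trans ?_
  rw [← hμ]
  have h2 : D' * Lg ≤ S.card := by
    rw [← hLg] at ht
    rw [← hM] at hS2
    have e2 : (M * D' + e) * Lg = M * (D' * Lg) + e * Lg := by ring
    have e3 : e * 1 ≤ e * Lg := Nat.mul_le_mul_left _ hLg1
    rw [e2] at ht
    have h3 : M * (D' * Lg) ≤ M * S.card := by omega
    exact Nat.le_of_mul_le_mul_left h3 (by rw [hM]; positivity)
  refine (pow_le_pow_of_le_one hμ0 hμ1.le h2).trans ?_
  rw [hLg]
  exact pow_log_le b hb μ hμ0 _ D' hD'.le K hK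

/-- the law of the random integer -/
theorem gf_law (hb : 2 ≤ b) (Δ : ℕ) (η : ℝ) (hη : 0 < η) (κ : ℤ) (e V : ℕ) : ∃ D K₀ : ℕ, ∀ K : ℕ, K₀ ≤ K → ∀ m, K = m + e →
    ∀ A p, Field b m Δ η A p → ∀ cc : ℤ,
    Law b (b.factorial * κ.natAbs) D V K (range (b ^ m)) p (fun v => cc + κ * (v : ℕ)) := by
  obtain ⟨D, K₀, h⟩ := char_small hb Δ η hη κ e V
  refine ⟨D, K₀, fun K hK m hm A p hF cc => ⟨fun v _ => hF.nonneg v, hF.sum.le, fun t ht => ?_⟩⟩
  have h1 := h K hK m hm A p hF t ht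
  obtain ⟨θ0, hθ0⟩ : ∃ θ0, θ0 = (t : ℝ) / ((b ^ (K + 1) : ℕ) : ℝ) := ⟨_, rfl⟩
  rw [← hθ0] at h1 ⊢
  have h2 : ∑ v ∈ range (b ^ m), ((p v : ℝ) : ℂ) * ee (((cc + κ * (v : ℕ) : ℤ) : ℝ) * θ0) =
      ee (cc * θ0) * ∑ v ∈ range (b ^ m), (p v : ℂ) * ee (v * ((κ : ℝ) * θ0)) := by
    rw [mul_sum]
    apply sum_congr rfl
    intro v _
    rw [mul_left_comm, ← ee_add]
    congr 2
    push_cast
    ring
  rw [h2, norm_mul, norm_ee, one_mul]
  exact h1

/-- the integers with given leading digits -/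
lemma block (hb : 2 ≤ b) (hη : 0 ≤ η) (hη1 : η ≤ 1) (T l j : ℕ) (hF : Field b (l + T) Δ η A p) (n : ℕ)
    (hn : (Δ + 1) ^ 3 * n ≤ T) :
    ∑ v ∈ (range (b ^ (l + T))).filter (fun v => v / b ^ l = j), p v ≤ (1 - η) ^ n := by
  classical
  obtain ⟨S, hSG, hS1, hS2⟩ := greedy hF.symm hF.degree T (Ico l (l + T)) (fun i hi => (mem_Ico.1 hi).2) (by simp)
  rw [Nat.card_Ico, Nat.add_sub_cancel_left] at hS2
  have hn' : n ≤ S.card := Nat.le_of_mul_le_mul_left (hn.trans hS2) (by positivity)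
  have h1 := given hb hF hη hη1 S (fun i hi => (mem_Ico.1 (hSG hi)).2) hS1 (fun i => dig b (j * b ^ l) i)
  refine le_trans ?_ (h1.trans (pow_le_pow_of_le_one (by linarith) (by linarith) hn'))
  rw [sum_filter]
  apply sum_le_sum
  intro v _
  by_cases hvj : v / b ^ l = j
  · rw [if_pos hvj, if_pos]
    intro i hi
    have hi' := (mem_Ico.1 (hSG hi)).1
    obtain ⟨s, rfl⟩ : ∃ s, i = l + s := ⟨i - l, by omega⟩
    unfold dig
    rw [pow_add, ← Nat.div_div_eq_div_mul, ← Nat.div_div_eq_div_mul, hvj, Nat.mul_div_cancel _ (by positivity)]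
  · rw [if_neg hvj]
    split_ifs
    · exact hF.nonneg v
    · exact le_rfl

open Classical in
/-- the integers in a short interval -/
lemma interval (hb : 2 ≤ b) (hη : 0 ≤ η) (hη1 : η ≤ 1) (T l : ℕ) (hF : Field b (l + T) Δ η A p) (n : ℕ)
    (hn : (Δ + 1) ^ 3 * n ≤ T) (Sm : ℕ → Prop)
    (h : ∀ v < b ^ (l + T), ∀ v' < b ^ (l + T), Sm v → Sm v' → v' < v + b ^ l) :
    ∑ v ∈ (range (b ^ (l + T))).filter Sm, p v ≤ 2 * (1 - η) ^ n := by
  have hbl : 0 < b ^ l := by positivity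
  by_cases hne : ((range (b ^ (l + T))).filter Sm).Nonempty
  · obtain ⟨v0, hv0, hmin⟩ := exists_min_image ((range (b ^ (l + T))).filter Sm) (fun v => v) hne
    rw [mem_filter, mem_range] at hv0
    obtain ⟨j0, hj0⟩ : ∃ j0, j0 = v0 / b ^ l := ⟨_, rfl⟩
    have hsub : (range (b ^ (l + T))).filter Sm ⊆
        ((range (b ^ (l + T))).filter fun v => v / b ^ l = j0) ∪ ((range (b ^ (l + T))).filter fun v => v / b ^ l = j0 + 1) := by
      intro v hv
      have h1 := hmin v hv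
      rw [mem_filter, mem_range] at hv
      have h2 := h v0 hv0.1 v hv.1 hv0.2 hv.2
      have h3 : j0 ≤ v / b ^ l := by rw [hj0]; exact Nat.div_le_div_right h1
      have h4 : v / b ^ l ≤ j0 + 1 := by
        have : v / b ^ l ≤ (v0 + b ^ l) / b ^ l := Nat.div_le_div_right h2.le
        rw [Nat.add_div_right _ hbl, ← hj0] at this
        exact this
      rw [mem_union, mem_filter, mem_filter, mem_range]
      rcases Nat.lt_or_ge j0 (v / b ^ l) with h5 | h5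
      · exact Or.inr ⟨hv.1, by omega⟩
      · exact Or.inl ⟨hv.1, by omega⟩
    have h6 := block hb hη hη1 T l j0 hF n hn
    have h7 := block hb hη hη1 T l (j0 + 1) hF n hn
    have h8 := sum_union_inter (s₁ := (range (b ^ (l + T))).filter fun v => v / b ^ l = j0)
      (s₂ := (range (b ^ (l + T))).filter fun v => v / b ^ l = j0 + 1) (f := p)
    have h9 : 0 ≤ ∑ v ∈ ((range (b ^ (l + T))).filter fun v => v / b ^ l = j0) ∩ ((range (b ^ (l + T))).filter fun v => v / b ^ l = j0 + 1), p v :=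
      sum_nonneg fun v _ => hF.nonneg v
    have h10 := sum_le_sum_of_subset_of_nonneg hsub (f := p) (fun v _ _ => hF.nonneg v)
    linarith
  · rw [not_nonempty_iff_eq_empty] at hne
    rw [hne, sum_empty]
    have : 0 ≤ 1 - η := by linarith
    positivity

/-- small values are rare -/
lemma anti_small (hb : 2 ≤ b) (Δ : ℕ) (η : ℝ) (hη : 0 < η) (κ : ℤ) (hκ : κ ≠ 0) (e U : ℕ) : ∃ W K₀ : ℕ, ∀ K : ℕ, K₀ ≤ K →
    ∀ m, K = m + e → ∀ A p, Field b m Δ η A p → ∀ cc : ℤ, ∀ Sm : ℕ → Prop, ∀ [DecidablePred Sm],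
    (∀ v < b ^ m, Sm v → 1 ≤ cc + κ * (v : ℕ) ∧
      ((cc + κ * (v : ℕ) : ℤ) : ℝ) < ((b ^ K : ℕ) : ℝ) / Real.log ((b ^ K : ℕ) : ℝ) ^ (W + 1)) →
    ∑ v ∈ range (b ^ m), (if Sm v then p v else 0) ≤ 1 / (K : ℝ) ^ (U + 1) := by
  have hbr : (2 : ℝ) ≤ b := by exact_mod_cast hb
  have hb0 : (0 : ℝ) < b := by linarith
  have hlogB : 0 < Real.log b := Real.log_pos (by linarith)
  rcases le_or_gt η (1 / 2) with hη2 | hη2
  swap
  · refine ⟨0, e + 1, fun K hK m hm A p hF => ?_⟩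
    exact absurd (eta_half hF (by omega)) (by linarith)
  obtain ⟨τ', hτ'⟩ : ∃ τ : ℕ, (1 - η) ^ τ < (1 / (b : ℝ)) ^ (U + 2) :=
    exists_pow_lt_of_lt_one (show (0 : ℝ) < (1 / b) ^ (U + 2) by positivity) (by linarith)
  obtain ⟨M, hM⟩ : ∃ M, M = (Δ + 1) ^ 3 := ⟨_, rfl⟩
  obtain ⟨τ, hτ⟩ : ∃ τ, τ = M * τ' := ⟨_, rfl⟩
  obtain ⟨k2, hk2⟩ := exists_nat_ge ((b : ℝ) ^ (e + τ + 1) / Real.log b ^ (τ + 1))
  obtain ⟨k3, hk3⟩ := room b hb τ (e + 4)
  refine ⟨τ, k2 + k3 + 4, fun K hK m hm A p hF cc Sm _ hSm => ?_⟩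
  have hK1 : 1 ≤ K := by omega
  have hKr : (1 : ℝ) ≤ K := by exact_mod_cast hK1
  have hroom := hk3 K (by omega)
  obtain ⟨Lg, hLg⟩ : ∃ Lg, Lg = Nat.log b K := ⟨_, rfl⟩
  rw [← hLg] at hroom
  obtain ⟨T, hT⟩ : ∃ T, T = τ * (Lg + 1) + 1 := ⟨_, rfl⟩
  have hTm : T ≤ m := by omega
  obtain ⟨l, hl⟩ : ∃ l, l = m - T := ⟨_, rfl⟩
  have hmTl : m = l + T := by omega
  have hR : ((b ^ K : ℕ) : ℝ) / Real.log ((b ^ K : ℕ) : ℝ) ^ (τ + 1) ≤ (b : ℝ) ^ l := by
    have e0 : Real.log ((b ^ K : ℕ) : ℝ) = K * Real.log b := by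
      push_cast
      rw [Real.log_pow]
    have e1 : (b : ℝ) ^ Lg ≤ K := by
      rw [hLg]
      exact_mod_cast Nat.pow_log_le_self b (by omega)
    have e2 : ((b ^ K : ℕ) : ℝ) = (b : ℝ) ^ l * ((b : ℝ) ^ (e + τ + 1) * ((b : ℝ) ^ Lg) ^ τ) := by
      push_cast
      rw [← pow_mul, ← pow_add, ← pow_add]
      congr 1
      rw [hm, hl, mul_comm Lg τ]
      have : τ * (Lg + 1) = τ * Lg + τ := by ring
      omega
    have hlog0 : 0 < (K : ℝ) * Real.log b := by positivity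
    rw [e0, div_le_iff₀ (by positivity), e2]
    apply mul_le_mul_of_nonneg_left _ (by positivity)
    rw [mul_pow, pow_succ (K : ℝ)]
    have e3 : (b : ℝ) ^ (e + τ + 1) ≤ K * Real.log b ^ (τ + 1) := by
      rw [div_le_iff₀ (by positivity)] at hk2
      refine hk2.trans (mul_le_mul_of_nonneg_right ?_ (by positivity))
      exact_mod_cast (by omega : k2 ≤ K)
    calc (b : ℝ) ^ (e + τ + 1) * ((b : ℝ) ^ Lg) ^ τ ≤ (K * Real.log b ^ (τ + 1)) * (K : ℝ) ^ τ :=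
          mul_le_mul e3 (pow_le_pow_left₀ (by positivity) e1 τ) (by positivity) (by positivity)
      _ = _ := by ring
  rw [hmTl] at hSm hF ⊢
  have hint := interval hb hη.le (by linarith) T l hF (τ' * (Lg + 1)) (by
      rw [← hM, hT, hτ]
      have : M * (τ' * (Lg + 1)) = M * τ' * (Lg + 1) := by ring
      omega) Sm (by
    intro v hv v' hv' hg hg'
    obtain ⟨a5, a1⟩ := hSm v hv hg
    obtain ⟨a6, a2⟩ := hSm v' hv' hg'
    have a3 : cc + κ * v < (b : ℤ) ^ l := by exact_mod_cast lt_of_lt_of_le a1 hR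
    have a4 : cc + κ * v' < (b : ℤ) ^ l := by exact_mod_cast lt_of_lt_of_le a2 hR
    by_contra hcon
    push Not at hcon
    have a7 : (v : ℤ) + (b : ℤ) ^ l ≤ v' := by exact_mod_cast hcon
    have hbl : (0 : ℤ) < (b : ℤ) ^ l := by positivity
    rcases lt_or_gt_of_ne hκ with h | h
    · have : κ * ((v' : ℤ) - v) ≤ -1 * ((v' : ℤ) - v) := by
        apply mul_le_mul_of_nonneg_right (by omega)
        linarith
      linarith
    · have : 1 * ((v' : ℤ) - v) ≤ κ * ((v' : ℤ) - v) := by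
        apply mul_le_mul_of_nonneg_right (by omega)
        linarith
      linarith)
  have h3 : (1 - η) ^ (τ' * (Lg + 1)) ≤ 1 / (K : ℝ) ^ (U + 2) := by
    rw [hLg]
    exact pow_log' b hb _ (by linarith) _ _ hτ'.le K hK1
  have h4 : ∑ v ∈ range (b ^ (l + T)), (if Sm v then p v else 0) = ∑ v ∈ (range (b ^ (l + T))).filter Sm, p v := by
    rw [sum_filter]
  rw [h4]
  have h5 : ∑ v ∈ (range (b ^ (l + T))).filter Sm, p v ≤ 2 * (1 - η) ^ (τ' * (Lg + 1)) := by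
    refine le_trans (le_of_eq ?_) hint
    congr!
  refine h5.trans ?_
  have hK2 : (2 : ℝ) ≤ K := by exact_mod_cast (by omega : 2 ≤ K)
  calc 2 * (1 - η) ^ (τ' * (Lg + 1)) ≤ K * (1 / (K : ℝ) ^ (U + 2)) := by
        apply mul_le_mul hK2 h3 (by have : 0 ≤ 1 - η := by linarith
                                    positivity) (by positivity)
    _ = 1 / (K : ℝ) ^ (U + 1) := by
        rw [show U + 2 = (U + 1) + 1 by ring, pow_succ]
        field_simp

end Pool.Agent.N213.GF
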