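import Pool.Agent.N213.GF.B

set_option autoImplicit false

/-! Random fields on the digits: local constraints. -/

namespace Pool.Agent.N213.GF
open Finset

variable {b k Δ : ℕ} {A : ℕ → ℕ → Prop} {R : ℕ → ℕ → ℕ → ℕ → Prop}

/-- The integers `v < b ^ k` whose digits satisfy the constraints `R i j` at all pairs of positions `i`, `j` which are equal or
adjacent in the graph `A`. -/
noncomputable def Sol (b k : ℕ) (A : ℕ → ℕ → Prop) (R : ℕ → ℕ → ℕ → ℕ → Prop) : Finset ℕ := by
  classical
  exact (range (b ^ k)).filter (fun v => ∀ i < k, ∀ j ∈ nb k A i, R i j (dig b v i) (dig b v j))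

lemma mem_Sol {v : ℕ} : v ∈ Sol b k A R ↔ v < b ^ k ∧ ∀ i < k, ∀ j ∈ nb k A i, R i j (dig b v i) (dig b v j) := by
  classical
  unfold Sol
  rw [mem_filter, mem_range]

/-- Local constraints on the digits, given by a graph of positions `0, …, k - 1` with degrees at most `Δ`, such that each digit
is flexible: for each position `i`, the digits of each solution in the closed neighbourhood of `i` may be changed in two ways to
get two solutions which differ only at the position `i`. -/
structure Local (b k Δ : ℕ) (A : ℕ → ℕ → Prop) (R : ℕ → ℕ → ℕ → ℕ → Prop) : Prop where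
  /-- the graph -/
  symm : ∀ i j, A i j → A j i
  /-- the degrees -/
  degree : ∀ i < k, (nb k A i).card ≤ Δ + 1
  /-- there are solutions -/
  nonempty : (Sol b k A R).Nonempty
  /-- flexible digits -/
  flexible : ∀ v ∈ Sol b k A R, ∀ i < k, ∃ x ∈ Sol b k A R, ∃ y ∈ Sol b k A R, Off b (nb k A i) x v ∧ Off b {i} y x ∧
    dig b y i ≠ dig b x i

lemma Sol_sub : Sol b k A R ⊆ range (b ^ k) := fun _ hv => mem_range.2 (mem_Sol.1 hv).1

open Classical in
/-- the uniform distribution -/
noncomputable def unif (b k : ℕ) (A : ℕ → ℕ → Prop) (R : ℕ → ℕ → ℕ → ℕ → Prop) (v : ℕ) : ℝ :=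
  if v ∈ Sol b k A R then 1 / ((Sol b k A R).card : ℝ) else 0

lemma unif_sum (f : ℕ → ℝ) : ∑ v ∈ range (b ^ k), unif b k A R v * f v = (∑ v ∈ Sol b k A R, f v) / ((Sol b k A R).card : ℝ) := by
  classical
  rw [← sum_subset (Sol_sub (b := b) (k := k) (A := A) (R := R)), sum_div]
  · apply sum_congr rfl
    intro v hv
    unfold unif
    rw [if_pos hv]
    ring
  · intro v _ hv
    unfold unif
    rw [if_neg hv, zero_mul]

lemma card_cl_le (hb : 2 ≤ b) (S : Finset ℕ) (v : ℕ) : (cl b k S v).card ≤ b ^ S.card := by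
  classical
  have h1 : (cl b k S v).card ≤ (S.pi (fun _ => range b)).card := by
    apply card_le_card_of_injOn (fun w => fun i (_ : i ∈ S) => dig b w i)
    · intro w _
      rw [mem_coe, mem_pi]
      intro i _
      exact mem_range.2 (dig_lt b w i hb)
    · intro w hw w' hw' h
      rw [mem_coe, mem_cl] at hw hw'
      apply dig_ext b k hb w w' hw.1 hw'.1
      intro i
      by_cases hi : i ∈ S
      · exact congrFun (congrFun h i) hi
      · rw [hw.2 i hi, hw'.2 i hi]
  refine h1.trans (le_of_eq ?_)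
  rw [card_pi, prod_const, card_range]

/-- combining two solutions -/
lemma splice_mem (hb : 2 ≤ b) (hs : ∀ i j, A i j → A j i) (S : Finset ℕ) (v w : ℕ) (hv : v ∈ Sol b k A R) (hw : w ∈ Sol b k A R)
    (h : ∀ i ∈ S, ∀ j < k, j ∉ S → A i j → dig b v j = dig b w j) : splice b k S v w ∈ Sol b k A R := by
  obtain ⟨hv1, hv2⟩ := mem_Sol.1 hv
  obtain ⟨hw1, hw2⟩ := mem_Sol.1 hw
  refine mem_Sol.2 ⟨splice_lt b k hb S v w, fun i hi j hj => ?_⟩
  obtain ⟨hjk, hj'⟩ := mem_nb.1 hj
  rw [dig_splice b k hb S v w hv1 hw1, dig_splice b k hb S v w hv1 hw1]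
  by_cases hiS : i ∈ S
  · by_cases hjS : j ∈ S
    · rw [if_pos hiS, if_pos hjS]
      exact hv2 i hi j hj
    · rw [if_pos hiS, if_neg hjS]
      rcases hj' with h' | h'
      · exact absurd (h' ▸ hiS) hjS
      · rw [← h i hiS j hjk hjS h']
        exact hv2 i hi j hj
  · by_cases hjS : j ∈ S
    · rw [if_neg hiS, if_pos hjS]
      rcases hj' with h' | h'
      · exact absurd (h' ▸ hjS) hiS
      · rw [← h j hjS i hi hiS (hs _ _ h')]
        exact hv2 i hi j hj
    · rw [if_neg hiS, if_neg hjS]
      exact hw2 i hi j hj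

lemma splice_splice (hb : 2 ≤ b) (S : Finset ℕ) (v w : ℕ) (hv : v < b ^ k) (hw : w < b ^ k) :
    splice b k S (splice b k S v w) (splice b k S w v) = v := by
  apply dig_ext b k hb _ _ (splice_lt b k hb _ _ _) hv
  intro i
  rw [dig_splice b k hb S _ _ (splice_lt b k hb _ _ _) (splice_lt b k hb _ _ _), dig_splice b k hb S v w hv hw,
    dig_splice b k hb S w v hw hv]
  split_ifs <;> rfl

/-- the uniform distribution on the solutions is a random field -/
theorem unif_field (hb : 2 ≤ b) (hL : Local b k Δ A R) : Field b k Δ (1 / (b : ℝ) ^ (Δ + 1)) A (unif b k A R) := by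
  classical
  have hb0 : (0 : ℝ) < b := by exact_mod_cast (by omega : 0 < b)
  have hcard : (0 : ℝ) < (Sol b k A R).card := by exact_mod_cast hL.nonempty.card_pos
  have hnn : ∀ v, 0 ≤ unif b k A R v := by
    intro v
    unfold unif
    split_ifs
    · positivity
    · exact le_rfl
  refine ⟨hL.symm, hL.degree, hnn, ?_, ?_, ?_⟩
  · have h := unif_sum (b := b) (k := k) (A := A) (R := R) (fun _ => 1)
    simp only [mul_one, sum_const, nsmul_eq_mul] at h
    rw [h, div_self hcard.ne']
  · intro S v hv w hw h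
    have h' : ∀ i ∈ S, ∀ j < k, j ∉ S → A i j → dig b w j = dig b v j := fun i hi j hj hj' hA => (h i hi j hj hj' hA).symm
    have e1 : (v ∈ Sol b k A R ∧ w ∈ Sol b k A R) ↔ (splice b k S v w ∈ Sol b k A R ∧ splice b k S w v ∈ Sol b k A R) := by
      constructor
      · rintro ⟨h1, h2⟩
        exact ⟨splice_mem hb hL.symm S v w h1 h2 h, splice_mem hb hL.symm S w v h2 h1 h'⟩
      · rintro ⟨h1, h2⟩
        have g : ∀ i ∈ S, ∀ j < k, j ∉ S → A i j → dig b (splice b k S v w) j = dig b (splice b k S w v) j := by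
          intro i hi j hj hj' hA
          rw [dig_splice b k hb S v w hv hw, dig_splice b k hb S w v hw hv, if_neg hj', if_neg hj']
          exact h' i hi j hj hj' hA
        have h3 := splice_mem hb hL.symm S _ _ h1 h2 g
        have h4 := splice_mem hb hL.symm S _ _ h2 h1 (fun i hi j hj hj' hA => (g i hi j hj hj' hA).symm)
        rw [splice_splice hb S v w hv hw] at h3
        rw [splice_splice hb S w v hw hv] at h4
        exact ⟨h3, h4⟩
    unfold unif
    by_cases h1 : v ∈ Sol b k A R ∧ w ∈ Sol b k A R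
    · have h2 := e1.1 h1
      rw [if_pos h1.1, if_pos h1.2, if_pos h2.1, if_pos h2.2]
    · have h2 : ¬ (splice b k S v w ∈ Sol b k A R ∧ splice b k S w v ∈ Sol b k A R) := fun h => h1 (e1.2 h)
      have z : ∀ (P Q : Prop) [Decidable P] [Decidable Q] (c : ℝ), ¬ (P ∧ Q) → (if P then c else 0) * (if Q then c else 0) = 0 := by
        intro P Q _ _ c h
        by_cases hP : P
        · rw [if_neg (fun hQ => h ⟨hP, hQ⟩), mul_zero]
        · rw [if_neg hP, zero_mul]
      rw [z _ _ _ h1, z _ _ _ h2]
  · intro v hv hpv i hi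
    have hvS : v ∈ Sol b k A R := by
      by_contra h
      apply hpv
      unfold unif
      rw [if_neg h]
    obtain ⟨x, hx, y, hy, hxv, hyx, hne⟩ := hL.flexible v hvS i hi
    have hm : 1 / (b : ℝ) ^ (Δ + 1) * mass b k (unif b k A R) (nb k A i) v ≤ 1 / ((Sol b k A R).card : ℝ) := by
      have h1 : mass b k (unif b k A R) (nb k A i) v ≤ (b : ℝ) ^ (Δ + 1) * (1 / ((Sol b k A R).card : ℝ)) := by
        rw [mass_eq]
        have h2 : ∀ w ∈ cl b k (nb k A i) v, unif b k A R w ≤ 1 / ((Sol b k A R).card : ℝ) := by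
          intro w _
          unfold unif
          split_ifs
          · exact le_rfl
          · positivity
        refine (sum_le_sum h2).trans ?_
        rw [sum_const, nsmul_eq_mul]
        apply mul_le_mul_of_nonneg_right _ (by positivity)
        have h3 : (cl b k (nb k A i) v).card ≤ b ^ (Δ + 1) :=
          (card_cl_le hb _ _).trans (Nat.pow_le_pow_right (by omega) (hL.degree i hi))
        exact_mod_cast h3
      calc _ ≤ 1 / (b : ℝ) ^ (Δ + 1) * ((b : ℝ) ^ (Δ + 1) * (1 / ((Sol b k A R).card : ℝ))) :=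
            mul_le_mul_of_nonneg_left h1 (by positivity)
        _ = _ := by field_simp
    refine ⟨x, (mem_Sol.1 hx).1, y, (mem_Sol.1 hy).1, hxv, hyx, hne, ?_, ?_⟩
    · refine hm.trans (le_of_eq ?_)
      unfold unif
      rw [if_pos hx]
    · refine hm.trans (le_of_eq ?_)
      unfold unif
      rw [if_pos hy]

open Classical in
/-- from probabilities to numbers -/
lemma sol_count (hne : (Sol b k A R).Nonempty) (Q : ℕ → Prop) (x : ℝ)
    (h : ∑ v ∈ range (b ^ k), (if Q v then 0 else unif b k A R v) ≤ x) :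
    (((Sol b k A R).filter fun v => ¬ Q v).card : ℝ) ≤ (Sol b k A R).card * x := by
  have hpos : (0 : ℝ) < (Sol b k A R).card := by exact_mod_cast hne.card_pos
  have h2 : ∑ v ∈ range (b ^ k), (if Q v then 0 else unif b k A R v) =
      (((Sol b k A R).filter fun v => ¬ Q v).card : ℝ) / (Sol b k A R).card := by
    have e1 : ∀ v ∈ range (b ^ k), (if Q v then 0 else unif b k A R v) = unif b k A R v * (if ¬ Q v then 1 else 0) := by
      intro v _
      by_cases hq : Q v
      · rw [if_pos hq, if_neg (not_not.2 hq), mul_zero]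
      · rw [if_neg hq, if_pos hq, mul_one]
    rw [sum_congr rfl e1, unif_sum, card_filter]
    push_cast
    rfl
  rw [h2, div_le_iff₀ hpos, mul_comm] at h
  exact h

end Pool.Agent.N213.GF
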