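import Pool.Agent.N213.GF.E

set_option autoImplicit false

/-! Random fields on the digits: examples of local constraints (independent sets and colourings of arbitrary graphs). -/

namespace Pool.Agent.N213.GF
open Finset

variable {b k Δ : ℕ} {A : ℕ → ℕ → Prop}

lemma self_nb {i : ℕ} (hi : i < k) : i ∈ nb k A i := mem_nb.2 ⟨hi, Or.inl rfl⟩

/-- Independent sets: no two adjacent positions have nonzero digits. -/
theorem indep_local (hb : 2 ≤ b) (hs : ∀ i j, A i j → A j i) (hd : ∀ i < k, (nb k A i).card ≤ Δ + 1) :
    Local b k Δ A (fun i j x y => i ≠ j → x = 0 ∨ y = 0) := by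
  classical
  refine ⟨hs, hd, ⟨0, mem_Sol.2 ⟨by positivity, fun i _ j _ _ => Or.inl ?_⟩⟩, ?_⟩
  · unfold dig
    rw [Nat.zero_div, Nat.zero_mod]
  · intro v hv i hi
    obtain ⟨hv1, hv2⟩ := mem_Sol.1 hv
    obtain ⟨f, hf⟩ : ∃ f : ℕ → ℕ → ℕ, f = fun a j => if j = i then a else if j ∈ nb k A i then 0 else dig b v j := ⟨_, rfl⟩
    have hfb : ∀ a < b, ∀ j < k, f a j < b := by
      intro a ha j _
      rw [hf]
      simp only
      split_ifs
      · exact ha
      · omega
      · exact dig_lt b v j hb
    have hdig : ∀ a < b, ∀ j, dig b (mk b k (f a)) j = f a j := by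
      intro a ha j
      rcases Nat.lt_or_ge j k with hj | hj
      · exact dig_mk b k hb _ (hfb a ha) j hj
      · rw [dig_big b k _ hb (mk_lt b k _ (hfb a ha)) j hj, hf]
        simp only
        rw [if_neg (by omega), if_neg (fun h => by have := (mem_nb.1 h).1; omega), dig_big b k v hb hv1 j hj]
    have hmem : ∀ a < b, mk b k (f a) ∈ Sol b k A (fun i j x y => i ≠ j → x = 0 ∨ y = 0) := by
      intro a ha
      refine mem_Sol.2 ⟨mk_lt b k _ (hfb a ha), fun j hj l hl hjl => ?_⟩
      rw [hdig a ha, hdig a ha, hf]
      simp only
      obtain ⟨hlk, hl'⟩ := mem_nb.1 hl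
      have hA : A j l := by
        rcases hl' with h | h
        · exact absurd h.symm hjl
        · exact h
      by_cases hji : j = i
      · right
        rw [if_neg (fun h => hjl (hji.trans h.symm)), if_pos (mem_nb.2 ⟨hlk, Or.inr (hji ▸ hA)⟩)]
      · by_cases hli : l = i
        · left
          rw [if_neg hji, if_pos (mem_nb.2 ⟨hj, Or.inr (hli ▸ hs _ _ hA)⟩)]
        · by_cases hjn : j ∈ nb k A i
          · left
            rw [if_neg hji, if_pos hjn]
          · by_cases hln : l ∈ nb k A i
            · right
              rw [if_neg hli, if_pos hln]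
            · rw [if_neg hji, if_neg hjn, if_neg hli, if_neg hln]
              exact hv2 j hj l hl hjl
    refine ⟨mk b k (f 0), hmem 0 (by omega), mk b k (f 1), hmem 1 (by omega), ?_, ?_, ?_⟩
    · intro j hj
      have hji : j ≠ i := fun h => hj (by rw [h]; exact self_nb hi)
      rw [hdig 0 (by omega), hf]
      simp only
      rw [if_neg hji, if_neg hj]
    · intro j hj
      rw [hdig 0 (by omega), hdig 1 (by omega), hf]
      simp only
      rw [mem_singleton] at hj
      rw [if_neg hj, if_neg hj]
    · rw [hdig 0 (by omega), hdig 1 (by omega), hf]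
      simp only
      rw [if_pos trivial, if_pos trivial]
      omega

/-- a free colour -/
lemma free_colour (c b : ℕ) (T : Finset ℕ) (h : c + T.card < b) : ∃ a < b, c ≤ a ∧ a ∉ T := by
  classical
  by_contra hcon
  push Not at hcon
  have h1 : Ico c b ⊆ T := fun a ha => hcon a (mem_Ico.1 ha).2 (mem_Ico.1 ha).1
  have h2 := card_le_card h1
  rw [Nat.card_Ico] at h2
  omega

/-- Proper colourings: adjacent positions have different digits, with at least two colours more than the degrees. -/
theorem colour_local (hb : Δ + 2 ≤ b) (hs : ∀ i j, A i j → A j i) (hd : ∀ i < k, (nb k A i).card ≤ Δ + 1) :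
    Local b k Δ A (fun i j x y => i ≠ j → x ≠ y) := by
  classical
  have hb2 : 2 ≤ b := by omega
  refine ⟨hs, hd, ?_, ?_⟩
  · -- there are colourings
    have key : ∀ n, n ≤ k → ∃ f : ℕ → ℕ, (∀ j, f j < b) ∧ ∀ i < n, ∀ j < n, j ∈ nb k A i → i ≠ j → f i ≠ f j := by
      intro n
      induction n with
      | zero => exact fun _ => ⟨fun _ => 0, fun _ => by show 0 < b; omega, fun i hi => absurd hi (by omega)⟩
      | succ n ih =>
        intro hn
        obtain ⟨f, hf1, hf2⟩ := ih (by omega)
        have hc : ((nb k A n).erase n).card ≤ Δ := by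
          rw [card_erase_of_mem (self_nb (by omega))]
          have := hd n (by omega)
          omega
        obtain ⟨a, ha, _, haT⟩ := free_colour 0 b (((nb k A n).erase n).image f) (by
          have := card_image_le (s := (nb k A n).erase n) (f := f)
          omega)
        have hne : ∀ j, j ∈ nb k A n → j ≠ n → a ≠ f j := by
          intro j hj hjn h
          exact haT (mem_image.2 ⟨j, mem_erase.2 ⟨hjn, hj⟩, h.symm⟩)
        refine ⟨Function.update f n a, fun j => ?_, fun i hi j hj hij hne' => ?_⟩
        · by_cases h : j = n
          · rw [h, Function.update_self]; exact ha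
          · rw [Function.update_of_ne h]; exact hf1 j
        · by_cases hin : i = n
          · rw [hin, Function.update_self, Function.update_of_ne (fun h => hne' (hin.trans h.symm))]
            exact hne j (hin ▸ hij) (fun h => hne' (hin.trans h.symm))
          · by_cases hjn : j = n
            · rw [hjn, Function.update_self, Function.update_of_ne hin]
              have hij' : i ∈ nb k A n := by
                refine mem_nb.2 ⟨by omega, Or.inr ?_⟩
                rcases (mem_nb.1 hij).2 with h | h
                · exact absurd h.symm hne'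
                · exact hjn ▸ hs _ _ h
              exact (hne i hij' hin).symm
            · rw [Function.update_of_ne hin, Function.update_of_ne hjn]
              exact hf2 i (by omega) j (by omega) hij hne'
    obtain ⟨f, hf1, hf2⟩ := key k le_rfl
    refine ⟨mk b k f, mem_Sol.2 ⟨mk_lt b k f (fun j _ => hf1 j), fun i hi j hj hij => ?_⟩⟩
    have hjk := (mem_nb.1 hj).1
    rw [dig_mk b k hb2 f (fun j _ => hf1 j) i hi, dig_mk b k hb2 f (fun j _ => hf1 j) j hjk]
    exact hf2 i hi j hjk hj hij
  · intro v hv i hi
    obtain ⟨hv1, hv2⟩ := mem_Sol.1 hv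
    have key : ∀ T : Finset ℕ, T ⊆ (nb k A i).erase i → ∃ f : ℕ → ℕ, (∀ j, f j < b) ∧ (∀ j, j ∉ T → f j = dig b v j) ∧
        (∀ j ∈ T, 2 ≤ f j) ∧ ∀ j < k, ∀ l ∈ nb k A j, j ≠ l → j ≠ i → l ≠ i → f j ≠ f l := by
      intro T
      induction T using Finset.induction_on with
      | empty =>
        intro _
        refine ⟨dig b v, fun j => dig_lt b v j hb2, fun _ _ => rfl, fun j hj => absurd hj (notMem_empty j), ?_⟩
        intro j hj l hl hjl _ _
        exact hv2 j hj l hl hjl
      | insert t T ht ih =>
        intro hT
        obtain ⟨f, hf1, hf2, hf3, hf4⟩ := ih (fun j hj => hT (mem_insert_of_mem hj))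
        have ht' := mem_erase.1 (hT (mem_insert_self t T))
        have htk := (mem_nb.1 ht'.2).1
        have hit : i ∈ nb k A t := by
          refine mem_nb.2 ⟨hi, Or.inr ?_⟩
          rcases (mem_nb.1 ht'.2).2 with h | h
          · exact absurd h ht'.1
          · exact hs _ _ h
        have hc : (((nb k A t).erase t).erase i).card + 1 ≤ Δ := by
          rw [card_erase_of_mem (mem_erase.2 ⟨ht'.1.symm, hit⟩), card_erase_of_mem (self_nb htk)]
          have := hd t htk
          have h2 : 1 < (nb k A t).card := one_lt_card.2 ⟨t, self_nb htk, i, hit, ht'.1⟩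
          omega
        obtain ⟨a, ha, ha2, haT⟩ := free_colour 2 b ((((nb k A t).erase t).erase i).image f) (by
          have := card_image_le (s := ((nb k A t).erase t).erase i) (f := f)
          omega)
        have hne : ∀ j, j ∈ nb k A t → j ≠ t → j ≠ i → a ≠ f j := by
          intro j hj hjn hji h
          exact haT (mem_image.2 ⟨j, mem_erase.2 ⟨hji, mem_erase.2 ⟨hjn, hj⟩⟩, h.symm⟩)
        refine ⟨Function.update f t a, fun j => ?_, fun j hj => ?_, fun j hj => ?_, fun j hj l hl hjl hji hli => ?_⟩
        · by_cases h : j = t
          · rw [h, Function.update_self]; exact ha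
          · rw [Function.update_of_ne h]; exact hf1 j
        · rw [mem_insert, not_or] at hj
          rw [Function.update_of_ne hj.1]
          exact hf2 j hj.2
        · by_cases h : j = t
          · rw [h, Function.update_self]; exact ha2
          · rw [Function.update_of_ne h]
            exact hf3 j ((mem_insert.1 hj).resolve_left h)
        · by_cases hjt : j = t
          · rw [hjt, Function.update_self, Function.update_of_ne (fun h => hjl (hjt.trans h.symm))]
            exact hne l (hjt ▸ hl) (fun h => hjl (hjt.trans h.symm)) hli
          · by_cases hlt : l = t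
            · rw [hlt, Function.update_self, Function.update_of_ne hjt]
              have hij' : j ∈ nb k A t := by
                refine mem_nb.2 ⟨hj, Or.inr ?_⟩
                rcases (mem_nb.1 hl).2 with h | h
                · exact absurd h.symm hjl
                · exact hlt ▸ hs _ _ h
              exact (hne j hij' hjt hji).symm
            · rw [Function.update_of_ne hjt, Function.update_of_ne hlt]
              exact hf4 j hj l hl hjl hji hli
    obtain ⟨f, hf1, hf2, hf3, hf4⟩ := key _ (Finset.Subset.refl _)
    obtain ⟨g, hg⟩ : ∃ g : ℕ → ℕ → ℕ, g = fun a => Function.update f i a := ⟨_, rfl⟩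
    have hgb : ∀ a < 2, ∀ j < k, g a j < b := by
      intro a ha j _
      rw [hg]
      by_cases h : j = i
      · simp only [h, Function.update_self]; omega
      · simp only [Function.update_of_ne h]; exact hf1 j
    have hdig : ∀ a < 2, ∀ j, dig b (mk b k (g a)) j = g a j := by
      intro a ha j
      rcases Nat.lt_or_ge j k with hj | hj
      · exact dig_mk b k hb2 _ (hgb a ha) j hj
      · rw [dig_big b k _ hb2 (mk_lt b k _ (hgb a ha)) j hj, hg]
        simp only
        rw [Function.update_of_ne (by omega), hf2 j (fun h => by
          have := (mem_nb.1 (mem_erase.1 h).2).1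
          omega), dig_big b k v hb2 hv1 j hj]
    have hnb : ∀ j, j ∈ nb k A i → j ≠ i → 2 ≤ f j := fun j hj hji => hf3 j (mem_erase.2 ⟨hji, hj⟩)
    have hmem : ∀ a < 2, mk b k (g a) ∈ Sol b k A (fun i j x y => i ≠ j → x ≠ y) := by
      intro a ha
      refine mem_Sol.2 ⟨mk_lt b k _ (hgb a ha), fun j hj l hl hjl => ?_⟩
      rw [hdig a ha, hdig a ha, hg]
      simp only
      by_cases hji : j = i
      · have hli : l ≠ i := fun h => hjl (hji.trans h.symm)
        rw [hji, Function.update_self, Function.update_of_ne hli]
        have := hnb l (hji ▸ hl) hli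
        omega
      · by_cases hli : l = i
        · rw [hli, Function.update_self, Function.update_of_ne hji]
          have hj' : j ∈ nb k A i := by
            refine mem_nb.2 ⟨hj, Or.inr ?_⟩
            rcases (mem_nb.1 hl).2 with h | h
            · exact absurd h.symm hjl
            · exact hli ▸ hs _ _ h
          have := hnb j hj' hji
          omega
        · rw [Function.update_of_ne hji, Function.update_of_ne hli]
          exact hf4 j hj l hl hjl hji hli
    refine ⟨mk b k (g 0), hmem 0 (by omega), mk b k (g 1), hmem 1 (by omega), ?_, ?_, ?_⟩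
    · intro j hj
      have hji : j ≠ i := fun h => hj (by rw [h]; exact self_nb hi)
      rw [hdig 0 (by omega), hg]
      simp only
      rw [Function.update_of_ne hji, hf2 j (fun h => hj (mem_erase.1 h).2)]
    · intro j hj
      rw [hdig 0 (by omega), hdig 1 (by omega), hg]
      simp only
      rw [mem_singleton] at hj
      rw [Function.update_of_ne hj, Function.update_of_ne hj]
    · rw [hdig 0 (by omega), hdig 1 (by omega), hg]
      simp only
      rw [Function.update_self, Function.update_self]
      omega

end Pool.Agent.N213.GF
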