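import Pool.Agent.N213.GF.D
import Pool.Agent.N213.GF.F
import Pool.Agent.N625.DY.K

set_option autoImplicit false

/-! Random fields on the digits: the class of the distributions. -/

namespace Pool.Agent.N213.GF
open Finset
open Pool.Agent.W93.AU (Law)
open Pool.Agent.N625.DY (Cls)

/-- the class of the random integers whose digits form a random field with respect to some graph -/
def GC (b Δ : ℕ) (η : ℝ) (k : ℕ) (p : ℕ → ℝ) : Prop := ∃ A : ℕ → ℕ → Prop, Field b k Δ η A p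

theorem gf_cls (b Δ : ℕ) (η : ℝ) (hb : 2 ≤ b) (hη : 0 < η) (κ : ℤ) (hκ : κ ≠ 0) : Cls b κ (GC b Δ η) := by
  refine ⟨hb, hκ, ?_, ?_, ⟨b.factorial * κ.natAbs, ?_, ?_⟩, ?_⟩
  · rintro k p ⟨A, hF⟩ v
    exact hF.nonneg v
  · rintro k p ⟨A, hF⟩
    exact hF.sum
  · exact Nat.mul_pos b.factorial_pos (Int.natAbs_pos.2 hκ)
  · intro e V
    obtain ⟨D, K₀, h⟩ := gf_law hb Δ η hη κ e V
    refine ⟨D, K₀, fun K hK m hm p hp cc => ?_⟩
    obtain ⟨A, hF⟩ := hp
    exact h K hK m hm A p hF cc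
  · intro e U
    obtain ⟨W, K₀, h⟩ := anti_small hb Δ η hη κ hκ e U
    refine ⟨W, K₀, fun K hK m hm p hp cc Sm _ hSm => ?_⟩
    obtain ⟨A, hF⟩ := hp
    exact h K hK m hm A p hF cc Sm hSm

end Pool.Agent.N213.GF
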