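import Pool.Agent.N213.GF.G
import Pool.Agent.N625.DY.L

set_option autoImplicit false

/-! Random fields on the digits: the law of the random integer, with room which is logarithmic in the number of digits. -/

namespace Pool.Agent.N213.GF
open Finset
open Pool.Agent.H807R2.Dav
open Pool.Agent.W93.AU
open Pool.Agent.W93.DG
open Pool.Agent.TH872.Mir (pow_log' room)
open Pool.Agent.N625.DY (ClsV)

variable {b k Δ : ℕ} {η : ℝ} {A : ℕ → ℕ → Prop} {p : ℕ → ℝ}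

/-- the exponential sums are small -/
theorem char_small' (hb : 2 ≤ b) (Δ : ℕ) (η : ℝ) (hη : 0 < η) (κ : ℤ) (τ V : ℕ) : ∃ D K₀ : ℕ, ∀ K : ℕ, K₀ ≤ K → ∀ m e, K = m + e →
    e ≤ τ * (Nat.log b K + 1) →
    ∀ A p, Field b m Δ η A p → ∀ t, D * (Nat.log b K + 1) ≤ ne b 0 K ((b.factorial * κ.natAbs * t) % b ^ (K + 1)) →
    ‖∑ v ∈ range (b ^ m), (p v : ℂ) * ee (v * ((κ : ℝ) * ((t : ℝ) / ((b ^ (K + 1) : ℕ) : ℝ))))‖ ≤ 1 / (K : ℝ) ^ V := by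
  classical
  have hB2 : (2 : ℝ) ≤ b := by exact_mod_cast hb
  have hF1 : (1 : ℝ) ≤ (b.factorial : ℝ) := by exact_mod_cast b.factorial_pos
  obtain ⟨c, hc⟩ : ∃ c, c = 4 * (1 / ((b : ℝ) ^ 2 * (b.factorial : ℝ))) ^ 2 := ⟨_, rfl⟩
  have hc0 : 0 < c := by rw [hc]; positivity
  have hc1 : c ≤ 1 / 4 := by
    rw [hc]
    have e1 : (4 : ℝ) ≤ (b : ℝ) ^ 2 * (b.factorial : ℝ) := by nlinarith
    have e2 : 1 / ((b : ℝ) ^ 2 * (b.factorial : ℝ)) ≤ 1 / 4 := one_div_le_one_div_of_le (by norm_num) e1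
    have e3 : 0 ≤ 1 / ((b : ℝ) ^ 2 * (b.factorial : ℝ)) := by positivity
    nlinarith
  rcases le_or_gt η (1 / 2) with hη2 | hη2
  swap
  · obtain ⟨K₁, hK₁⟩ := room b hb τ 1
    refine ⟨0, K₁, fun K hK m e hm he A p hF => ?_⟩
    have := hK₁ K hK
    exact absurd (eta_half hF (by omega)) (by linarith)
  obtain ⟨μ, hμ⟩ : ∃ μ, μ = 1 - η * c := ⟨_, rfl⟩
  have hηc : η * c ≤ 1 / 2 := by nlinarith
  have hηc0 : 0 < η * c := mul_pos hη hc0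
  have hμ0 : 0 ≤ μ := by rw [hμ]; linarith
  have hμ1 : μ < 1 := by rw [hμ]; linarith
  obtain ⟨D', hD'⟩ := exists_pow_lt_of_lt_one (show 0 < (1 / (b : ℝ)) ^ V by positivity) hμ1
  obtain ⟨M, hM⟩ : ∃ M, M = (Δ + 1) ^ 3 := ⟨_, rfl⟩
  refine ⟨M * D' + τ, 1, fun K hK m e hm he A p hF t ht => ?_⟩
  obtain ⟨θ, hθ⟩ : ∃ θ, θ = (κ : ℝ) * ((t : ℝ) / ((b ^ (K + 1) : ℕ) : ℝ)) := ⟨_, rfl⟩
  obtain ⟨Lg, hLg⟩ : ∃ Lg, Lg = Nat.log b K + 1 := ⟨_, rfl⟩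
  have hLg1 : 1 ≤ Lg := by omega
  have hgc := gc_ge b κ t K m e 0 hb hm
  rw [← hc, ← hθ, gc_eq] at hgc
  rw [← hθ]
  obtain ⟨G, hG⟩ : ∃ G : Finset ℕ, G = (range m).filter (fun j => Gd b c ((b : ℝ) ^ j * θ)) := ⟨_, rfl⟩
  have e1 : ∑ j ∈ range m, (if 0 + j + 1 ≤ m ∧ Gd b c ((b : ℝ) ^ j * θ) then 1 else 0) = G.card := by
    rw [hG, card_filter]
    apply sum_congr rfl
    intro j hj
    rw [mem_range] at hj
    by_cases h : Gd b c ((b : ℝ) ^ j * θ)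
    · rw [if_pos h, if_pos ⟨by omega, h⟩]
    · rw [if_neg h, if_neg (fun h' => h h'.2)]
  rw [e1] at hgc
  obtain ⟨S, hSG, hS1, hS2⟩ := greedy hF.symm hF.degree G.card G (fun i hi => by
    rw [hG, mem_filter, mem_range] at hi
    exact hi.1) le_rfl
  have h1 := char_field hb hF c θ hη.le (by linarith) S (fun i hi => by
    have := hSG hi
    rw [hG, mem_filter, mem_range] at this
    exact this.1) hS1 (fun i hi => by
    have := hSG hi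
    rw [hG, mem_filter, mem_range] at this
    exact this.2)
  refine h1.trans ?_
  rw [← hμ]
  have h2 : D' * Lg ≤ S.card := by
    rw [← hLg] at ht
    rw [← hM] at hS2
    have e2 : (M * D' + τ) * Lg = M * (D' * Lg) + τ * Lg := by ring
    rw [← hLg] at he
    rw [e2] at ht
    have h3 : M * (D' * Lg) ≤ M * S.card := by omega
    exact Nat.le_of_mul_le_mul_left h3 (by rw [hM]; positivity)
  refine (pow_le_pow_of_le_one hμ0 hμ1.le h2).trans ?_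
  rw [hLg]
  exact pow_log_le b hb μ hμ0 _ D' hD'.le K hK

/-- the law of the random integer -/
theorem gf_law' (hb : 2 ≤ b) (Δ : ℕ) (η : ℝ) (hη : 0 < η) (κ : ℤ) (τ V : ℕ) : ∃ D K₀ : ℕ, ∀ K : ℕ, K₀ ≤ K → ∀ m e, K = m + e →
    e ≤ τ * (Nat.log b K + 1) →
    ∀ A p, Field b m Δ η A p → ∀ cc : ℤ,
    Law b (b.factorial * κ.natAbs) D V K (range (b ^ m)) p (fun v => cc + κ * (v : ℕ)) := by
  obtain ⟨D, K₀, h⟩ := char_small' hb Δ η hη κ τ V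
  refine ⟨D, K₀, fun K hK m e hm he A p hF cc => ⟨fun v _ => hF.nonneg v, hF.sum.le, fun t ht => ?_⟩⟩
  have h1 := h K hK m e hm he A p hF t ht
  obtain ⟨θ0, hθ0⟩ : ∃ θ0, θ0 = (t : ℝ) / ((b ^ (K + 1) : ℕ) : ℝ) := ⟨_, rfl⟩
  rw [← hθ0] at h1 ⊢
  have h2 : ∑ v ∈ range (b ^ m), ((p v : ℝ) : ℂ) * ee (((cc + κ * (v : ℕ) : ℤ) : ℝ) * θ0) =
      ee (cc * θ0) * ∑ v ∈ range (b ^ m), (p v : ℂ) * ee (v * ((κ : ℝ) * θ0)) := by
    rw [mul_sum]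
    apply sum_congr rfl
    intro v _
    rw [mul_left_comm, ← ee_add]
    congr 2
    push_cast
    ring
  rw [h2, norm_mul, norm_ee, one_mul]
  exact h1

theorem gf_clsV (b Δ : ℕ) (η : ℝ) (hb : 2 ≤ b) (hη : 0 < η) (κ : ℤ) (hκ : κ ≠ 0) : ClsV b κ (GC b Δ η) := by
  refine ⟨gf_cls b Δ η hb hη κ hκ, ⟨b.factorial * κ.natAbs, ?_, ?_⟩⟩
  · exact Nat.mul_pos b.factorial_pos (Int.natAbs_pos.2 hκ)
  · intro τ V
    obtain ⟨D, K₀, h⟩ := gf_law' hb Δ η hη κ τ V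
    refine ⟨D, K₀, fun K hK m e hm heτ p hp cc => ?_⟩
    obtain ⟨A, hF⟩ := hp
    exact h K hK m e hm heτ A p hF cc

end Pool.Agent.N213.GF
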