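import Pool.Agent.N625.DY.O
import Pool.Agent.TH872.GQ.Dual

set_option autoImplicit false

/-! Classes of distributions of random integers given by digits: level of distribution with divisor-bounded weights, the
heights depending on the moduli. -/

namespace Pool.Agent.N213.GF
open Finset
open Pool.Agent.N625.DY

variable {b : ℕ} {κ : ℤ} {C : ℕ → (ℕ → ℝ) → Prop}

/-- the level of distribution with divisor-bounded weights, for all heights and for the heights `x q` -/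
def Heavy (b B U k : ℕ) (ε : ℝ) (lam : ℕ → ℝ) (x : ℕ → ℕ) (a : ℕ) : Prop :=
  (∀ y ≤ B * b ^ k, |∑ q ∈ (Icc 1 ⌊((b ^ k : ℕ) : ℝ) ^ (1 - ε)⌋₊).filter (fun q => a.Coprime q), lam q * Err y q a| ≤
    ((b ^ k : ℕ) : ℝ) / (k : ℝ) ^ U) ∧
  |∑ q ∈ (Icc 1 ⌊((b ^ k : ℕ) : ℝ) ^ (1 - ε)⌋₊).filter (fun q => a.Coprime q), lam q * Err (x q) q a| ≤
    ((b ^ k : ℕ) : ℝ) / (k : ℝ) ^ U

lemma sizes (hb : 2 ≤ b) (B m : ℕ) (ε : ℝ) (hε : 0 < ε) : ∃ k₀ : ℕ, ∀ k : ℕ, k₀ ≤ k →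
    1 ≤ Real.log (((B + 1) * b ^ k : ℕ) : ℝ) ∧ Real.log (((B + 1) * b ^ k : ℕ) : ℝ) ≤ (k : ℝ) ^ 2 ∧
    ((⌊((b ^ k : ℕ) : ℝ) ^ (1 - ε)⌋₊ : ℕ) : ℝ) * (k : ℝ) ^ m ≤ (((B + 1) * b ^ k : ℕ) : ℝ) := by
  have hbr : (2 : ℝ) ≤ b := by exact_mod_cast hb
  have hb0 : (0 : ℝ) < b := by linarith
  have hlogb : 0 < Real.log b := Real.log_pos (by linarith)
  have hlogb2 : (1 : ℝ) / 2 ≤ Real.log b := by
    have := Real.log_two_gt_d9
    have := Real.log_le_log (by norm_num) hbr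
    linarith
  obtain ⟨k1, h1⟩ := exists_nat_ge (Real.log b + Real.log ((B + 1 : ℕ) : ℝ))
  -- `k ^ m ≤ b ^ (ε k)`
  have hε' : 0 < ε * Real.log b := by positivity
  have hlim : ∀ᶠ x : ℝ in Filter.atTop, x ^ m ≤ Real.exp (ε * Real.log b * x) := by
    have h := isLittleO_pow_exp_pos_mul_atTop m hε'
    filter_upwards [h.bound (show (0 : ℝ) < 1 by norm_num), Filter.eventually_ge_atTop (0 : ℝ)] with x hx hx0
    rw [one_mul, Real.norm_of_nonneg (by positivity), Real.norm_of_nonneg (Real.exp_pos _).le] at hx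
    exact hx
  obtain ⟨x₀, hx₀⟩ := Filter.eventually_atTop.1 hlim
  obtain ⟨k2, h2⟩ := exists_nat_ge x₀
  refine ⟨k1 + k2 + 2, fun k hk => ?_⟩
  have hk2 : (2 : ℝ) ≤ k := by exact_mod_cast (by omega : 2 ≤ k)
  have hkk1 : Real.log b + Real.log ((B + 1 : ℕ) : ℝ) ≤ k := h1.trans (by exact_mod_cast (by omega : k1 ≤ k))
  have hB1 : (0 : ℝ) < ((B + 1 : ℕ) : ℝ) := by exact_mod_cast Nat.succ_pos B
  have hlogB : 0 ≤ Real.log ((B + 1 : ℕ) : ℝ) := Real.log_nonneg (by exact_mod_cast (by omega : 1 ≤ B + 1))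
  have hlog : Real.log (((B + 1) * b ^ k : ℕ) : ℝ) = Real.log ((B + 1 : ℕ) : ℝ) + k * Real.log b := by
    rw [Nat.cast_mul, Nat.cast_pow, Real.log_mul hB1.ne' (by positivity), Real.log_pow]
  have hbk : (0 : ℝ) < ((b ^ k : ℕ) : ℝ) := by positivity
  refine ⟨?_, ?_, ?_⟩
  · rw [hlog]
    nlinarith
  · rw [hlog]
    nlinarith
  · have e1 : ((⌊((b ^ k : ℕ) : ℝ) ^ (1 - ε)⌋₊ : ℕ) : ℝ) ≤ ((b ^ k : ℕ) : ℝ) ^ (1 - ε) := Nat.floor_le (by positivity)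
    have e2 : (k : ℝ) ^ m ≤ ((b ^ k : ℕ) : ℝ) ^ ε := by
      refine (hx₀ k (h2.trans (by exact_mod_cast (by omega : k2 ≤ k)))).trans (le_of_eq ?_)
      rw [Real.rpow_def_of_pos hbk, Nat.cast_pow, Real.log_pow]
      congr 1
      ring
    calc ((⌊((b ^ k : ℕ) : ℝ) ^ (1 - ε)⌋₊ : ℕ) : ℝ) * (k : ℝ) ^ m ≤ ((b ^ k : ℕ) : ℝ) ^ (1 - ε) * ((b ^ k : ℕ) : ℝ) ^ ε :=
          mul_le_mul e1 e2 (by positivity) (by positivity)
      _ = ((b ^ k : ℕ) : ℝ) := by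
          rw [← Real.rpow_add hbk, sub_add_cancel, Real.rpow_one]
      _ ≤ (((B + 1) * b ^ k : ℕ) : ℝ) := by
          exact_mod_cast Nat.le_mul_of_pos_left _ (Nat.succ_pos B)

open Classical in
theorem cls_heavy (hC : Cls b κ C) (B T U : ℕ) (ε : ℝ) (hε : 0 < ε) :
    ∃ k₀ : ℕ, ∀ k : ℕ, k₀ ≤ k → ∀ p, C k p → ∀ c : ℤ, |c| ≤ B * (b : ℤ) ^ k → ∀ lam : ℕ → ℝ,
    (∀ q, |lam q| ≤ (k : ℝ) ^ T * (q.divisors.card : ℝ) ^ T) → ∀ x : ℕ → ℕ, (∀ q, x q ≤ B * b ^ k) →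
    ∑ v ∈ range (b ^ k), (if (0 < c + κ * (v : ℕ) → Heavy b B U k ε lam x (c + κ * (v : ℕ)).toNat) then 0 else p v) ≤
      1 / (k : ℝ) ^ U := by
  have hb := hC.two
  obtain ⟨T₁, U₁, m, k1, hh⟩ := Pool.Agent.TH872.GQ.heavy T (U + 2)
  obtain ⟨k2, hl⟩ := cls_level hC B T₁ U₁ ε hε
  obtain ⟨k3, hs⟩ := sizes (b := b) hb B m ε hε
  refine ⟨k1 + k2 + k3 + B + 2, fun k hk p hp c hc lam hlam x hx => ?_⟩
  obtain ⟨s1, s2, s3⟩ := hs k (by omega)
  have hp0 := hC.nonneg k p hp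
  have hk2 : (2 : ℝ) ≤ k := by exact_mod_cast (by omega : 2 ≤ k)
  have hk0 : (0 : ℝ) < k := by linarith
  have hbk : (0 : ℝ) ≤ ((b ^ k : ℕ) : ℝ) := Nat.cast_nonneg _
  have hXk : ((b ^ k : ℕ) : ℝ) ≤ (((B + 1) * b ^ k : ℕ) : ℝ) := by
    exact_mod_cast Nat.le_mul_of_pos_left _ (Nat.succ_pos B)
  obtain ⟨Ω, hΩ⟩ : ∃ Ω : Finset ℕ, Ω = (range (b ^ k)).filter (fun v : ℕ => 0 < c + κ * (v : ℕ)) := ⟨_, rfl⟩
  obtain ⟨a, ha⟩ : ∃ a : ℕ → ℕ, a = fun v : ℕ => (c + κ * (v : ℕ)).toNat := ⟨_, rfl⟩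
  have hyp : Pool.Agent.TH872.GQ.Hyp k ((B + 1) * b ^ k) (B * b ^ k) ⌊((b ^ k : ℕ) : ℝ) ^ (1 - ε)⌋₊ T₁ U₁ Ω p a := by
    intro lam' hlam' E hdec hE
    refine le_trans ?_ (hl k (by omega) p hp c hc lam' hlam')
    rw [hΩ, sum_filter]
    apply sum_le_sum
    intro v hv
    by_cases h1 : 0 < c + κ * (v : ℕ)
    · rw [if_pos h1]
      by_cases h2 : E v
      · rw [if_pos h2, if_neg]
        intro h3
        obtain ⟨y, hy, hlt⟩ := hE v (by rw [hΩ, mem_filter]; exact ⟨hv, h1⟩) h2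
        have h4 := h3 h1 y hy
        have h5 : ((b ^ k : ℕ) : ℝ) / (k : ℝ) ^ U₁ ≤ (((B + 1) * b ^ k : ℕ) : ℝ) / (k : ℝ) ^ U₁ :=
          div_le_div_of_nonneg_right hXk (by positivity)
        have h6 : Pool.Agent.TH212.EH.W lam' ⌊((b ^ k : ℕ) : ℝ) ^ (1 - ε)⌋₊ y (a v) =
            ∑ q ∈ (Icc 1 ⌊((b ^ k : ℕ) : ℝ) ^ (1 - ε)⌋₊).filter (fun q => (c + κ * (v : ℕ)).toNat.Coprime q),
              lam' q * Err y q (c + κ * (v : ℕ)).toNat := by
          rw [ha]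
          rfl
        rw [h6] at hlt
        linarith
      · rw [if_neg h2]
        split_ifs
        · exact le_rfl
        · exact hp0 v
    · rw [if_neg h1]
      split_ifs
      · exact le_rfl
      · exact hp0 v
  obtain ⟨r1, r2⟩ := hh k (by omega) ((B + 1) * b ^ k) (B * b ^ k) _ (Nat.mul_le_mul_right _ (by omega)) s1 s2 s3 ℕ Ω p
    (fun v _ => hp0 v) a hyp lam hlam
  have e1 := r1 (fun v => ∃ y ≤ B * b ^ k, (((B + 1) * b ^ k : ℕ) : ℝ) / (k : ℝ) ^ (U + 2) <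
    |Pool.Agent.TH212.EH.W lam ⌊((b ^ k : ℕ) : ℝ) ^ (1 - ε)⌋₊ y (a v)|) (fun _ => Classical.propDecidable _) (fun v _ h => h)
  have e2 := r2 x hx (fun v => (((B + 1) * b ^ k : ℕ) : ℝ) / (k : ℝ) ^ (U + 2) <
    |Pool.Agent.TH212.EH.WW lam x ⌊((b ^ k : ℕ) : ℝ) ^ (1 - ε)⌋₊ (a v)|) (fun _ => Classical.propDecidable _) (fun v _ h => h)
  have hthr : (((B + 1) * b ^ k : ℕ) : ℝ) / (k : ℝ) ^ (U + 2) ≤ ((b ^ k : ℕ) : ℝ) / (k : ℝ) ^ U := by
    rw [div_le_div_iff₀ (by positivity) (by positivity), pow_add]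
    push_cast
    have h3 : (B : ℝ) + 1 ≤ k := by exact_mod_cast (by omega : B + 1 ≤ k)
    have h4 : (B : ℝ) + 1 ≤ (k : ℝ) ^ 2 := by nlinarith
    have h5 : (0 : ℝ) ≤ (b : ℝ) ^ k * (k : ℝ) ^ U := by positivity
    nlinarith
  have hfin : ∑ v ∈ range (b ^ k), (if (0 < c + κ * (v : ℕ) → Heavy b B U k ε lam x (c + κ * (v : ℕ)).toNat) then 0 else p v) ≤
      1 / (k : ℝ) ^ (U + 2) + 1 / (k : ℝ) ^ (U + 2) := by
    refine le_trans ?_ (add_le_add e1 e2)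
    rw [← sum_add_distrib, hΩ, sum_filter]
    apply sum_le_sum
    intro v hv
    by_cases h1 : 0 < c + κ * (v : ℕ)
    · rw [if_pos h1]
      by_cases h2 : Heavy b B U k ε lam x (c + κ * (v : ℕ)).toNat
      · rw [if_pos (fun _ => h2)]
        apply add_nonneg <;> split_ifs <;> first | exact hp0 v | exact le_rfl
      · rw [if_neg (fun h3 => h2 (h3 h1))]
        unfold Heavy at h2
        rw [not_and_or] at h2
        rcases h2 with h2 | h2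
        · push Not at h2
          obtain ⟨y, hy, hlt⟩ := h2
          have h3 : ∃ y ≤ B * b ^ k, (((B + 1) * b ^ k : ℕ) : ℝ) / (k : ℝ) ^ (U + 2) <
              |Pool.Agent.TH212.EH.W lam ⌊((b ^ k : ℕ) : ℝ) ^ (1 - ε)⌋₊ y (a v)| := by
            refine ⟨y, hy, lt_of_le_of_lt hthr ?_⟩
            rw [ha]
            exact hlt
          rw [if_pos h3]
          have h9 := hp0 v
          split_ifs <;> linarith
        · push Not at h2
          have h3 : (((B + 1) * b ^ k : ℕ) : ℝ) / (k : ℝ) ^ (U + 2) <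
              |Pool.Agent.TH212.EH.WW lam x ⌊((b ^ k : ℕ) : ℝ) ^ (1 - ε)⌋₊ (a v)| := by
            refine lt_of_le_of_lt hthr ?_
            rw [ha]
            exact h2
          rw [if_pos h3]
          have h9 := hp0 v
          split_ifs <;> linarith
    · rw [if_neg h1, if_pos (fun h => absurd h h1)]
  refine hfin.trans ?_
  rw [← two_mul, mul_one_div, div_le_div_iff₀ (by positivity) (by positivity), pow_add, one_mul, mul_comm]
  have h5 : (0 : ℝ) ≤ (k : ℝ) ^ U := by positivity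
  have h6 : (2 : ℝ) ≤ (k : ℝ) ^ 2 := by nlinarith
  exact mul_le_mul_of_nonneg_left h6 h5

open Classical in
/-- the same for all the residues nearby and for several systems of weights -/
theorem cls_heavy_near (hC : Cls b κ C) (B T W U : ℕ) (ε : ℝ) (hε : 0 < ε) :
    ∃ k₀ : ℕ, ∀ k : ℕ, k₀ ≤ k → ∀ p, C k p → ∀ c : ℤ, |c| ≤ B * (b : ℤ) ^ k → ∀ L : ℕ, (L : ℝ) ≤ (k : ℝ) ^ T →
    ∀ lam : Fin L → ℕ → ℝ, (∀ l q, |lam l q| ≤ (k : ℝ) ^ T * (q.divisors.card : ℝ) ^ T) →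
    ∀ x : Fin L → ℕ → ℕ, (∀ l q, x l q ≤ B * b ^ k) →
    ∑ v ∈ range (b ^ k), (if (∀ y : ℤ, |y - (c + κ * (v : ℕ))| ≤ (k : ℤ) ^ W → 0 < y → ∀ l, Heavy b B U k ε (lam l) (x l) y.toNat) then 0
      else p v) ≤ 1 / (k : ℝ) ^ U := by
  have hb := hC.two
  obtain ⟨k₀, h0⟩ := cls_heavy hC (B + 1) T (U + W + T + 2) ε hε
  obtain ⟨k3, h3⟩ := pow_ev b W hb
  refine ⟨k₀ + k3 + 3, fun k hk p hp c hc L hL lam hlam x hx => ?_⟩
  have hk1 : (1 : ℝ) ≤ k := by exact_mod_cast (by omega : 1 ≤ k)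
  apply cls_near hC k U W (by omega) p hp c (fun y => 0 < y → ∀ l, Heavy b B U k ε (lam l) (x l) y.toNat)
  intro t ht
  have hW : (k : ℤ) ^ W ≤ (b : ℤ) ^ k := by exact_mod_cast h3 k (by omega)
  have hct : |c + t| ≤ ((B + 1 : ℕ) : ℤ) * (b : ℤ) ^ k := by
    have := abs_add_le c t
    push_cast
    linarith
  have hp0 := hC.nonneg k p hp
  have hx' : ∀ l q, x l q ≤ (B + 1) * b ^ k := fun l q => (hx l q).trans (Nat.mul_le_mul_right _ (by omega))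
  have key : ∀ l, ∑ v ∈ range (b ^ k), (if (0 < c + t + κ * (v : ℕ) → Heavy b (B + 1) (U + W + T + 2) k ε (lam l) (x l) (c + t + κ * (v : ℕ)).toNat)
      then 0 else p v) ≤ 1 / (k : ℝ) ^ (U + W + T + 2) := fun l => h0 k (by omega) p hp (c + t) hct (lam l) (hlam l) (x l) (hx' l)
  have hbound : ∀ v ∈ range (b ^ k), (if (0 < c + t + κ * (v : ℕ) → ∀ l, Heavy b B U k ε (lam l) (x l) (c + t + κ * (v : ℕ)).toNat)
      then 0 else p v) ≤ ∑ l, (if (0 < c + t + κ * (v : ℕ) → Heavy b (B + 1) (U + W + T + 2) k ε (lam l) (x l) (c + t + κ * (v : ℕ)).toNat)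
      then 0 else p v) := by
    intro v _
    have hnn : ∀ l, 0 ≤ (if (0 < c + t + κ * (v : ℕ) → Heavy b (B + 1) (U + W + T + 2) k ε (lam l) (x l) (c + t + κ * (v : ℕ)).toNat)
      then 0 else p v) := fun l => by
      split_ifs
      · exact le_rfl
      · exact hp0 v
    by_cases h : 0 < c + t + κ * (v : ℕ) → ∀ l, Heavy b B U k ε (lam l) (x l) (c + t + κ * (v : ℕ)).toNat
    · rw [if_pos h]
      exact sum_nonneg fun l _ => hnn l
    · rw [if_neg h]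
      push Not at h
      obtain ⟨h1, l, h2⟩ := h
      have h4 : ¬ (0 < c + t + κ * (v : ℕ) → Heavy b (B + 1) (U + W + T + 2) k ε (lam l) (x l) (c + t + κ * (v : ℕ)).toNat) := fun h5 => by
        apply h2
        obtain ⟨h6, h7⟩ := h5 h1
        have h8 : ((b ^ k : ℕ) : ℝ) / (k : ℝ) ^ (U + W + T + 2) ≤ ((b ^ k : ℕ) : ℝ) / (k : ℝ) ^ U :=
          div_le_div_of_nonneg_left (Nat.cast_nonneg _) (by positivity) (pow_le_pow_right₀ hk1 (by omega))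
        exact ⟨fun y hy => (h6 y (hy.trans (Nat.mul_le_mul_right _ (by omega)))).trans h8, h7.trans h8⟩
      have h5 := single_le_sum (f := fun l => (if (0 < c + t + κ * (v : ℕ) → Heavy b (B + 1) (U + W + T + 2) k ε (lam l) (x l) (c + t + κ * (v : ℕ)).toNat)
        then 0 else p v)) (fun l _ => hnn l) (mem_univ l)
      rw [if_neg h4] at h5
      exact h5
  have hfin : ∑ v ∈ range (b ^ k), (if (0 < c + t + κ * (v : ℕ) → ∀ l, Heavy b B U k ε (lam l) (x l) (c + t + κ * (v : ℕ)).toNat)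
      then 0 else p v) ≤ ∑ _l : Fin L, 1 / (k : ℝ) ^ (U + W + T + 2) := by
    refine (sum_le_sum hbound).trans ?_
    rw [sum_comm]
    exact sum_le_sum fun l _ => key l
  refine le_trans (le_of_eq ?_) (hfin.trans ?_)
  · apply sum_congr rfl
    intro v _
    congr
  rw [sum_const, card_univ, Fintype.card_fin, nsmul_eq_mul]
  calc (L : ℝ) * (1 / (k : ℝ) ^ (U + W + T + 2)) ≤ (k : ℝ) ^ T * (1 / (k : ℝ) ^ (U + W + T + 2)) :=
        mul_le_mul_of_nonneg_right hL (by positivity)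
    _ = 1 / (k : ℝ) ^ (U + W + 2) := by
        rw [show U + W + T + 2 = T + (U + W + 2) by ring, pow_add]
        field_simp
    _ ≤ 1 / (k : ℝ) ^ (U + W + 1) := by
        apply one_div_le_one_div_of_le (by positivity)
        exact pow_le_pow_right₀ hk1 (by omega)

end Pool.Agent.N213.GF
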